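import Pool.Agent.Y7.LN.All
import Pool.Agent.Y7.LN.Fin2
import Pool.Agent.Y303.LN.OdeA
import Pool.Agent.Y338.LN.Thr
import Pool.Agent.Y899.LN.RT
import Pool.Agent.Y429.LN.Sumb

/-! Project LN, second part: everything together. -/

set_option autoImplicit false

namespace Pool.Agent.Y7.LN

open Pool.Agent.Y303.EJ

theorem t_BACK2 : S_BACK2 :=
  t_BACK2_of Pool.Agent.Y44.EJ.t_NUM Pool.Agent.Y287.LN.t_WN Pool.Agent.Y71.LN.t_CHB t_INDB'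
    Pool.Agent.Y592.LN.t_GALG Pool.Agent.Y799.LN.t_BOOTG Pool.Agent.Y38.LN.LIMG.t_LIMG
    Pool.Agent.Y812.EJ.t_PBE

theorem t_FWD2 : S_FWD2 :=
  t_FWD2_of Pool.Agent.Y421.SK.t_GAL3 Pool.Agent.Y987.EJ.t_LIME Pool.Agent.Y523.EJ.t_PERSE
    Pool.Agent.Y523.EJ.t_LOCE Pool.Agent.Y303.LN.t_ODE2' Pool.Agent.Y812.EJ.t_PBE

theorem t_CORL2 (hPAR : S_PAR2) (hSUP : S_SUP) : S_CORL2 :=
  t_CORL2_of t_FWD2 t_BACK2 Pool.Agent.Y799.LN.t_BOOTG Pool.Agent.Y331.LN.t_LIPT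
    Pool.Agent.Y338.LN.t_THR Pool.Agent.Y899.LN.t_RT Pool.Agent.Y429.LN.t_SUMB hSUP
    Pool.Agent.Y448.SK.t_PK hPAR Pool.Agent.Y303.SK.t_BAS
    Pool.Agent.Y317.SK.t_FORM Pool.Agent.Y686.EJ.t_MME t_INTE Pool.Agent.Y419.EJ.t_DERBE t_CONCE
    Pool.Agent.Y427.SK.t_SER Pool.Agent.Y500.SK.t_ENER Pool.Agent.Y936.EJ.t_WC
    Pool.Agent.Y44.EJ.t_NUM Pool.Agent.Y287.LN.t_WN

theorem t_FINL2 (hPAR : S_PAR2) (hSUP : S_SUP) : S_FINL2 :=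
  t_FINL2_of (t_CORL2 hPAR hSUP) t_END' Pool.Agent.Y810.EJ.t_W1 t_W7' Pool.Agent.Y936.EJ.t_WC
    Pool.Agent.Y303.LN.t_GLUE Pool.Agent.Y303.LN.t_AFT Pool.Agent.Y810.LN.t_LIM0

end Pool.Agent.Y7.LN
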