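import Pool.Agent.Y7.LN.Main2
import Pool.Agent.Y303.LN.Defs

/-!
Project LN: non-uniqueness of Leray-Hopf solutions, with the rate of the singularity; the final
theorem from the steps (`Pool.Agent.Y7.LN.Fin2` with the blow-up of the velocity).
-/

open Set Filter Topology MeasureTheory Metric

set_option autoImplicit false

namespace Pool.Agent.Y7.LN

open Pool.Agent.Y5 (E3)
open Pool.Agent.Y5.D (Ix qd vf3 Init)
open Pool.Agent.Y6.N
open Pool.Agent.Y6.K (Kz lv)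
open Pool.Agent.Y303.SK
open Pool.Agent.Y303.EJ
open Pool.Agent.Y303.LN (Aft S_AFT)

/-- The final theorem. -/
def S_FINL3 : Prop := ∀ (ν : ℝ) (Ω : Set E3) (η : ℝ), 0 < ν → IsOpen Ω →
  Bornology.IsBounded Ω → Ω.Nonempty → 0 < η → ∃ (ι : Type) (e : ι → E3 → E3) (σ : ι → ι)
    (s : ι → ℝ) (i₀ : ι) (T Θ : ℝ) (u : ℝ → E3 → E3) (U : ℝ → ℝ → E3 → E3),
    SkewD Ω e σ s ∧ 0 < T ∧ T < Θ ∧ u 0 = e i₀ ∧
    -- the common part on `[0, T]`
    SolD Ω ν e σ s T u ∧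
    (∀ t ∈ Ico 0 T, ContDiff ℝ (⊤ : ℕ∞) (u t)) ∧
    (∀ k : ℕ, ∀ T' < T, ∃ M, ∀ t ∈ Icc 0 T', ∀ x, ‖iteratedFDeriv ℝ k (u t) x‖ ≤ M) ∧
    (∀ t ∈ Ico 0 T, ipr (u t) (u t) + 2 * ν * (∫ τ in (0 : ℝ)..t, gg (gr (u τ))) =
      ipr (u 0) (u 0)) ∧
    (∀ t ∈ Ico 0 T, 1 - η ≤ ipr (u t) (u t)) ∧ ipr (u T) (u T) ≤ η ∧
    (∀ M : ℝ, ∃ t ∈ Ico 0 T, ∃ x, M < ‖u t x‖) ∧
    -- uniqueness up to the time `T`
    (∀ (T' : ℝ) (v : ℝ → E3 → E3) (G : ℝ → E3 → Fin 3 → E3), 0 < T' → T' ≤ T →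
      LH Ω ν e σ s T' v G → v 0 =ᵐ[volume] u 0 → ∀ t ∈ Icc 0 T', v t =ᵐ[volume] u t) ∧
    -- the continuations, with the energy defect `δ`
    ∀ δ ∈ Icc (0 : ℝ) (7 / 10), (∀ t ≤ T, U δ t = u t) ∧
      LH Ω ν e σ s Θ (U δ) (fun t => gr (U δ t)) ∧
      (∀ t ∈ Ioc T Θ, ContDiff ℝ (⊤ : ℕ∞) (U δ t)) ∧ (∀ t ∈ Ioc T Θ, ∀ x ∉ Ω, U δ t x = 0) ∧
      (∀ t ∈ Ioc T Θ, ∀ x, dvg (U δ t) x = 0) ∧
      (∀ k : ℕ, ∀ T₁ ∈ Ioc T Θ, ∃ M, ∀ t ∈ Icc T₁ Θ, ∀ x,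
        ‖iteratedFDeriv ℝ k (U δ t) x‖ ≤ M) ∧
      (∀ i, ∀ t ∈ Ioc T Θ, HasDerivWithinAt (fun τ => ipr (U δ τ) (e i))
        (s i * ipr (U δ t) (e (σ i)) - ν * dirf (U δ t) (e i) - adv (U δ t) (U δ t) (e i))
        (Ioc T Θ) t) ∧
      (∀ t ∈ Ioc T Θ, ipr (U δ t) (U δ t) + 2 * ν * (∫ τ in (0 : ℝ)..t, gg (gr (U δ τ))) =
        (1 - δ) * ipr (u 0) (u 0)) ∧
      (∀ r ∈ Icc 0 Θ, r ≠ T → ∀ t ∈ Icc r Θ,
        ipr (U δ t) (U δ t) + 2 * ν * (∫ τ in r..t, gg (gr (U δ τ))) ≤ ipr (U δ r) (U δ r)) ∧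
      ∀ ε > (0 : ℝ), ∃ M, ∀ t ∈ Icc 0 Θ, t ≠ T → ∀ x,
        ‖U δ t x‖ ≤ M * |t - T| ^ (-(3 / 5 + ε))

theorem t_FINL3_of (hCORL : S_CORL2) (hEND : S_END) (hW1 : S_W1) (hW7 : S_W7) (hWC : S_WC)
    (hGLUE : Pool.Agent.Y303.LN.S_GLUE) (hAFT : S_AFT) (hLIM0 : S_LIM0) : S_FINL3 := by
  intro ν Ω η hν hΩ hbdΩ hne hη
  set η₂ : ℝ := min (η / 4) (1 / 100) with hη₂
  have hη₂0 : 0 < η₂ := lt_min (by linarith) (by norm_num)
  have hη₂1 : η₂ ≤ 1 / 100 := min_le_right _ _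
  have hη₂2 : η₂ ≤ η / 4 := min_le_left _ _
  obtain ⟨e, S, T, u, Θ, W, y, C, hΘ, hW, hylim, hys, hys2, hrate, hq⟩ :=
    hCORL ν Ω η₂ hν hΩ hbdΩ hne hη₂0 hη₂1
  obtain ⟨y', hy1, hy2, hy3⟩ := C.fin
  have hone : ipr (u 0) (u 0) = 1 := by
    rw [C.u0]
    exact (C.skew.orth _ _).1 rfl
  obtain ⟨v, hv1, hv2, hv3, hv4⟩ := hEND Ω ν _ e σI (sI S) T η₂ u y' hΩ hbdΩ hν C.hT C.co C.skew
    C.sol (fun t ht => (C.smooth t ht).of_le two_le) C.en hone C.enl hy1 hy2 hy3 hη₂0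
    (by linarith)
  have h0 : (0 : ℝ) ∈ Ico 0 T := ⟨le_rfl, C.hT⟩
  have hLH := lh_of_weak hW1 hΩ hbdΩ hν C hv1 hv2
  have hTI : T ∈ Icc 0 T := ⟨C.hT.le, le_rfl⟩
  have hneT : (𝓝[Ico 0 T] T).NeBot := by
    rw [← mem_closure_iff_nhdsWithin_neBot, closure_Ico C.hT.ne]
    exact right_mem_Icc.2 C.hT.le
  -- uniqueness
  have huniq : ∀ (T' : ℝ) (w : ℝ → E3 → E3) (G : ℝ → E3 → Fin 3 → E3), 0 < T' → T' ≤ T →
      LH Ω ν e σI (sI S) T' w G → w 0 =ᵐ[volume] v 0 → ∀ t ∈ Icc 0 T', w t =ᵐ[volume] v t := by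
    intro T' w G hT' hTT hw hw0 t ht
    have hw0' : w 0 =ᵐ[volume] u 0 := by rwa [hv1 0 h0] at hw0
    have hlt : ∀ t ∈ Icc 0 T', t < T → w t =ᵐ[volume] v t := by
      intro t ht htT
      rw [hv1 t ⟨ht.1, htT⟩]
      exact hW7 Ω ν _ e σI (sI S) T T' u w G hΩ hbdΩ hν (core_str C) hT' hTT hw hw0' t ht htT
    rcases lt_or_eq_of_le (ht.2.trans hTT) with h1 | h1
    · exact hlt t ht h1
    · -- the final time
      have hTT' : T' = T := le_antisymm hTT (h1 ▸ ht.2)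
      subst h1
      subst hTT'
      refine ae_of_coef C.skew (hw.inH _ ht) (hv2.inH _ ht) fun i => ?_
      have hei : InH Ω (e i) := Pool.Agent.Y284.EJ.inH_cs (C.skew.field i)
      have c1 := (hw.cont (e i) hei T' ht).mono (Ico_subset_Icc_self)
      have c2 := (hv2.cont (e i) hei T' ht).mono (Ico_subset_Icc_self)
      refine tendsto_nhds_unique c1 (c2.congr' ?_)
      refine eventually_nhdsWithin_of_forall fun τ hτ => ?_
      exact (Pool.Agent.Y284.EJ.ipr_congr_left (hlt τ ⟨hτ.1, hτ.2.le⟩ hτ.2)).symm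
  -- the value at the time `T`
  have hvT : ∀ i, ipr (v T) (e i) = y i := by
    intro i
    have hei : InH Ω (e i) := Pool.Agent.Y284.EJ.inH_cs (C.skew.field i)
    have c2 : Tendsto (fun t => ipr (v t) (e i)) (𝓝[Ico 0 T] T) (𝓝 (ipr (v T) (e i))) :=
      (hv2.cont (e i) hei T hTI).mono (Ico_subset_Icc_self)
    have c1 : Tendsto (fun t => ipr (u t) (e i)) (𝓝[Ico 0 T] T) (𝓝 (y i)) := by
      rw [nhdsWithin_Ico_eq_nhdsLT C.hT]
      exact hylim i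
    refine tendsto_nhds_unique c2 (c1.congr' ?_)
    refine eventually_nhdsWithin_of_forall fun τ hτ => ?_
    simp only
    rw [hv1 τ hτ]
  have hvv : ipr (v T) (v T) = ∑' i, y i ^ 2 := by
    rw [((hWC Ω _ e σI (sI S) hΩ hbdΩ C.skew C.co).1 (v T) (hv2.inH T hTI)).2]
    exact tsum_congr fun i => by rw [hvT]
  have hgg : ∀ w : E3 → E3, 0 ≤ gg (gr w) := fun w => by
    rw [gg_gr]; exact dirf_nonneg _
  have hD0 : 0 ≤ ∫ τ in (0 : ℝ)..T, gg (gr (v τ)) :=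
    intervalIntegral.integral_nonneg C.hT.le fun r _ => hgg _
  have hv4' : ipr (v T) (v T) + 2 * ν * (∫ τ in (0 : ℝ)..T, gg (gr (v τ))) ≤ 2 * η₂ := by
    simp only [gg_gr]
    exact hv4
  have hv0 : ipr (v 0) (v 0) = 1 := by rw [hv1 0 h0, hone]
  have hvTle : ipr (v T) (v T) ≤ 2 * η₂ := by
    have : 0 ≤ 2 * ν * ∫ τ in (0 : ℝ)..T, gg (gr (v τ)) := by positivity
    linarith
  -- the continuations
  set D₁ : ℝ := 2 * ν * ∫ τ in (0 : ℝ)..T, gg (gr (v τ)) with hD₁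
  have hD₁0 : 0 ≤ D₁ := by positivity
  have hvT0 : 0 ≤ ipr (v T) (v T) := by
    rw [hvv]; exact tsum_nonneg fun i => sq_nonneg _
  have hcont : ∀ δ : ℝ, ∃ V : ℝ → E3 → E3, δ ∈ Icc (0 : ℝ) (7 / 10) → (∀ t ≤ T, V t = v t) ∧
      LH Ω ν e σI (sI S) (T + Θ) V (fun t => gr (V t)) ∧
      (∀ t ∈ Ioc T (T + Θ), ContDiff ℝ (⊤ : ℕ∞) (V t)) ∧
      (∀ t ∈ Ioc T (T + Θ), ∀ x ∉ Ω, V t x = 0) ∧
      (∀ t ∈ Ioc T (T + Θ), ∀ x, dvg (V t) x = 0) ∧
      (∀ k : ℕ, ∀ T₁ ∈ Ioc T (T + Θ), ∃ M, ∀ t ∈ Icc T₁ (T + Θ), ∀ x,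
        ‖iteratedFDeriv ℝ k (V t) x‖ ≤ M) ∧
      (∀ i, ∀ t ∈ Ioc T (T + Θ), HasDerivWithinAt (fun τ => ipr (V τ) (e i))
        (sI S i * ipr (V t) (e (σI i)) - ν * dirf (V t) (e i) - adv (V t) (V t) (e i))
        (Ioc T (T + Θ)) t) ∧
      (∀ t ∈ Ioc T (T + Θ), ipr (V t) (V t) + 2 * ν * (∫ τ in (0 : ℝ)..t, gg (gr (V τ))) =
        1 - δ) ∧
      (∀ r ∈ Icc 0 (T + Θ), r ≠ T → ∀ t ∈ Icc r (T + Θ),
        ipr (V t) (V t) + 2 * ν * (∫ τ in r..t, gg (gr (V τ))) ≤ ipr (V r) (V r)) ∧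
      ∀ ε > (0 : ℝ), ∃ M, ∀ t ∈ Icc 0 (T + Θ), t ≠ T → ∀ x,
        ‖V t x‖ ≤ M * |t - T| ^ (-(3 / 5 + ε)) := by
    intro δ
    by_cases hδ : δ ∈ Icc (0 : ℝ) (7 / 10)
    swap
    · exact ⟨v, fun h => absurd h hδ⟩
    obtain ⟨κ, hκdef⟩ : ∃ κ, κ = 1 - δ - D₁ - ipr (v T) (v T) := ⟨_, rfl⟩
    have hκ1 : 1 / 4 ≤ κ := by
      rw [hκdef]
      linarith [hδ.2]
    have hκ2 : ipr (v T) (v T) + κ + D₁ ≤ 1 := by
      rw [hκdef]
      linarith [hδ.1]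
    have hκ0 : 0 ≤ κ := le_trans (by norm_num) hκ1
    have hq2 : √κ ^ 2 = κ := Real.sq_sqrt hκ0
    have hq1 : 1 / 2 ≤ √κ := by
      rw [show (1 / 2 : ℝ) = √(1 / 4) by
        rw [show (1 / 4 : ℝ) = (1 / 2) ^ 2 by norm_num, Real.sqrt_sq (by norm_num)]]
      exact Real.sqrt_le_sqrt hκ1
    obtain ⟨z, hz, hzr⟩ := hq (√κ) hq1 (by rw [hq2, ← hvv]; linarith)
    -- the shifted modes
    set z' : Ix (ℕ × Bool) → ℝ → ℝ := fun i t => z i (t - T) with hz'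
    have hTΘ : T < T + Θ := by linarith
    have hsh : ∀ t ∈ Ioc T (T + Θ), t - T ∈ Ioc 0 Θ := fun t ht =>
      ⟨by linarith [ht.1], by linarith [ht.2]⟩
    have hA := hAFT Ω ν e S T (T + Θ) (∑' a, y a ^ 2 + κ) z' (v T) hΩ hbdΩ hTΘ C.skew
      (fun k T₁ hT₁ => by
        obtain ⟨b, hb1, hb2⟩ := hz.bdk k (T₁ - T) (hsh T₁ hT₁)
        exact ⟨b, hb1, fun t ht i => hb2 (t - T) ⟨by linarith [ht.1], by linarith [ht.2]⟩ i⟩)
      (fun T₁ hT₁ => by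
        obtain ⟨b, hb1, hb2⟩ := hz.bd (T₁ - T) (hsh T₁ hT₁)
        exact ⟨b, hb1, fun t ht i => hb2 (t - T) ⟨by linarith [ht.1], by linarith [ht.2]⟩ i⟩)
      (fun i t ht => by
        have h1 := hz.der i (t - T) (hsh t ht)
        have h2 : HasDerivWithinAt (fun t : ℝ => t - T) 1 (Ioc T (T + Θ)) t :=
          ((hasDerivAt_id t).sub_const T).hasDerivWithinAt
        have h3 := h1.comp t h2 (fun τ hτ => hsh τ hτ)
        rw [mul_one] at h3
        exact h3)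
      (fun i => by
        rw [hvT i]
        obtain ⟨P, hP⟩ := hz.lip i
        have h1 : Tendsto (fun t : ℝ => P * (t - T)) (𝓝[>] T) (𝓝 (P * (T - T))) :=
          (((continuous_const.mul (continuous_id.sub continuous_const)).tendsto T).mono_left
            nhdsWithin_le_nhds)
        rw [sub_self, mul_zero] at h1
        rw [tendsto_iff_dist_tendsto_zero]
        refine squeeze_zero' (Eventually.of_forall fun _ => dist_nonneg) ?_ h1
        filter_upwards [Ioc_mem_nhdsGT hTΘ] with t ht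
        rw [Real.dist_eq]
        exact hP (t - T) ⟨by linarith [ht.1], by linarith [ht.2]⟩)
      (fun t ht => by
        have h1 := (hz.en (t - T) ⟨by linarith [ht.1], by linarith [ht.2]⟩).2
        rwa [hq2] at h1)
    obtain ⟨hAft, hcoef⟩ := hA
    set u₂ : ℝ → E3 → E3 := fun t => ser e (fun i => z' i t) with hu₂
    obtain ⟨V, hV1, hV2, hV3, hV4, hV5, hV6, hV7, hV8⟩ :=
      hGLUE Ω ν _ e σI (sI S) T (T + Θ) (∑' a, y a ^ 2 + κ) v u₂ hΩ hbdΩ hν C.hT hTΘ C.co C.skew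
        hLH hAft hv0 (by
          rw [hv0, ← hvv]
          exact hκ2)
    have hgt : ∀ t ∈ Ioc T (T + Θ), V t = u₂ t := fun t ht => hV2 t ht.1
    have hV8' : ∀ r t : ℝ, T < r → r ≤ t → t ≤ T + Θ →
        ipr (V t) (V t) + 2 * ν * (∫ τ in r..t, gg (gr (V τ))) = ipr (V r) (V r) := by
      intro r t hr hrt ht
      rw [hV2 t (hr.trans_le hrt), hV2 r hr, ← hV8 r t hr hrt ht]
      congr 2
      refine intervalIntegral.integral_congr fun τ hτ => ?_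
      rw [uIcc_of_le hrt] at hτ
      rw [hV2 τ (hr.trans_le hτ.1)]
    have hint : ∀ a b : ℝ, a ∈ Icc 0 (T + Θ) → b ∈ Icc 0 (T + Θ) → a ≤ b →
        IntervalIntegrable (fun τ => gg (gr (V τ))) volume a b := by
      intro a b ha hb hab
      rw [intervalIntegrable_iff_integrableOn_Ioo_of_le hab]
      exact hV3.diss.mono_set (Ioo_subset_Ioo ha.1 hb.2)
    have h0Θ : (0 : ℝ) ∈ Icc 0 (T + Θ) := ⟨le_rfl, by linarith [C.hT]⟩
    have hTΘ' : T ∈ Icc 0 (T + Θ) := ⟨C.hT.le, by linarith⟩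
    refine ⟨V, fun _ => ⟨hV1, hV3, fun t ht => by rw [hgt t ht]; exact hV4 t ht,
      fun t ht => by rw [hgt t ht]; exact hV5 t ht, fun t ht => by rw [hgt t ht]; exact hV6 t ht,
      ?_, ?_, ?_, ?_, ?_⟩⟩
    · intro k T₁ hT₁
      obtain ⟨M, hM⟩ := hV7 k T₁ hT₁
      refine ⟨M, fun t ht x => ?_⟩
      rw [hV2 t (hT₁.1.trans_le ht.1)]
      exact hM t ht x
    · intro i t ht
      rw [hgt t ht]
      exact (hAft.eqn i t ht).congr (fun τ hτ => by rw [hgt τ hτ]) (by rw [hgt t ht])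
    · -- the energy after the time `T`
      have hsum : ∀ t ∈ Ioc (0 : ℝ) Θ, ∑' a, z a t ^ 2 = ipr (V (T + t)) (V (T + t)) := by
        intro t ht
        have ht' : T + t ∈ Ioc T (T + Θ) := ⟨by linarith [ht.1], by linarith [ht.2]⟩
        rw [hgt _ ht']
        have h1 := (hcoef _ ht').2
        rw [hu₂]
        simp only
        rw [h1]
        refine tsum_congr fun a => ?_
        simp only [hz']
        rw [add_sub_cancel_left]
      have hanti : AntitoneOn (fun t => ∑' a, z a t ^ 2) (Ioc 0 Θ) := by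
        intro r hr t ht hrt
        simp only
        rw [hsum r hr, hsum t ht]
        have h1 := hV8' (T + r) (T + t) (by linarith [hr.1]) (by linarith) (by linarith [ht.2])
        have h2 : 0 ≤ ∫ τ in (T + r)..(T + t), gg (gr (V τ)) :=
          intervalIntegral.integral_nonneg (by linarith) fun _ _ => hgg _
        have h3 : 0 ≤ 2 * ν * ∫ τ in (T + r)..(T + t), gg (gr (V τ)) := by positivity
        linarith
      have hL := hLIM0 (ℕ × Bool) η₂ (√κ) Θ W y z hΘ hη₂0 hq1 hW hys hz.lip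
        (fun t ht => hz.en t ⟨ht.1.le, ht.2⟩) hanti hz.arr
      rw [hq2, ← hvv] at hL
      have hmap : Tendsto (fun t : ℝ => t - T) (𝓝[>] T) (𝓝[>] 0) := by
        refine tendsto_nhdsWithin_iff.2 ⟨?_, ?_⟩
        · have h1 : Tendsto (fun t : ℝ => t - T) (𝓝 T) (𝓝 (T - T)) :=
            (continuous_id.sub continuous_const).tendsto T
          rw [sub_self] at h1
          exact h1.mono_left nhdsWithin_le_nhds
        · filter_upwards [self_mem_nhdsWithin] with t ht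
          exact sub_pos.2 (mem_Ioi.1 ht)
      have hEn : Tendsto (fun t => ipr (V t) (V t)) (𝓝[>] T) (𝓝 (ipr (v T) (v T) + κ)) := by
        refine (hL.comp hmap).congr' ?_
        filter_upwards [Ioc_mem_nhdsGT hTΘ] with t ht
        simp only [Function.comp]
        rw [hsum (t - T) (hsh t ht), add_sub_cancel]
      have hcint : ContinuousOn (fun t => ∫ τ in (0 : ℝ)..t, gg (gr (V τ))) (Icc 0 (T + Θ)) := by
        have := intervalIntegral.continuousOn_primitive_interval'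
          (hint 0 (T + Θ) h0Θ ⟨by linarith [C.hT], le_rfl⟩ (by linarith [C.hT])) left_mem_uIcc
        rwa [uIcc_of_le (by linarith [C.hT])] at this
      have hT0 : (∫ τ in (0 : ℝ)..T, gg (gr (V τ))) = ∫ τ in (0 : ℝ)..T, gg (gr (v τ)) := by
        refine intervalIntegral.integral_congr fun τ hτ => ?_
        rw [uIcc_of_le C.hT.le] at hτ
        rw [hV1 τ hτ.2]
      have hDi : Tendsto (fun t => 2 * ν * ∫ τ in (0 : ℝ)..t, gg (gr (V τ))) (𝓝[>] T) (𝓝 D₁) := by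
        have h1 : Tendsto (fun t => ∫ τ in (0 : ℝ)..t, gg (gr (V τ))) (𝓝[Ioc T (T + Θ)] T)
            (𝓝 (∫ τ in (0 : ℝ)..T, gg (gr (V τ)))) :=
          (hcint T hTΘ').mono (fun t ht => ⟨C.hT.le.trans ht.1.le, ht.2⟩)
        rw [nhdsWithin_Ioc_eq_nhdsGT hTΘ] at h1
        rw [hD₁, ← hT0]
        exact h1.const_mul _
      intro t ht
      have hconst : ∀ r ∈ Ioc T t, ipr (V r) (V r) +
          2 * ν * (∫ τ in (0 : ℝ)..r, gg (gr (V τ))) =
          ipr (V t) (V t) + 2 * ν * (∫ τ in (0 : ℝ)..t, gg (gr (V τ))) := by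
        intro r hr
        have h1 := hV8' r t hr.1 hr.2 ht.2
        have hrI : r ∈ Icc 0 (T + Θ) := ⟨C.hT.le.trans hr.1.le, hr.2.trans ht.2⟩
        have h2 := intervalIntegral.integral_add_adjacent_intervals
          (hint 0 r h0Θ hrI hrI.1)
          (hint r t hrI ⟨C.hT.le.trans ht.1.le, ht.2⟩ hr.2)
        rw [← h2, ← h1]
        ring
      have h3 := hEn.add hDi
      have h4 : Tendsto (fun r => ipr (V r) (V r) +
          2 * ν * (∫ τ in (0 : ℝ)..r, gg (gr (V τ)))) (𝓝[>] T)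
          (𝓝 (ipr (V t) (V t) + 2 * ν * (∫ τ in (0 : ℝ)..t, gg (gr (V τ))))) := by
        refine tendsto_const_nhds.congr' ?_
        filter_upwards [Ioc_mem_nhdsGT ht.1] with r hr
        exact (hconst r hr).symm
      rw [tendsto_nhds_unique h4 h3, hκdef]
      ring
    · -- the strong energy inequality
      intro r hr hrT t ht
      rcases lt_or_gt_of_ne hrT with h1 | h1
      · have hr' : r ∈ Ico 0 T := ⟨hr.1, h1⟩
        have e1 := hV3.energy t ⟨hr.1.trans ht.1, ht.2⟩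
        have e2 := hv3 r hr'
        have e3 : (∫ τ in (0 : ℝ)..r, gg (gr (V τ))) = ∫ τ in (0 : ℝ)..r, dirf (v τ) (v τ) := by
          refine intervalIntegral.integral_congr fun τ hτ => ?_
          rw [uIcc_of_le hr.1] at hτ
          rw [hV1 τ (hτ.2.trans h1.le), gg_gr]
        have e4 := intervalIntegral.integral_add_adjacent_intervals
          (hint 0 r h0Θ hr hr.1) (hint r t hr ⟨hr.1.trans ht.1, ht.2⟩ ht.1)
        rw [hV1 0 C.hT.le, hv0, ← e4, e3] at e1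
        rw [hV1 r h1.le]
        linarith
      · exact (hV8' r t h1 ht.1 ht.2).le
    · -- the rate
      intro ε hε
      obtain ⟨M₁, hM₁⟩ := hrate ε hε
      obtain ⟨M₂, hM₂⟩ := hzr ε hε
      refine ⟨max M₁ M₂, fun t ht htT x => ?_⟩
      have hpos : 0 ≤ |t - T| ^ (-(3 / 5 + ε)) := Real.rpow_nonneg (abs_nonneg _) _
      rcases lt_or_gt_of_ne htT with h1 | h1
      · have ht' : t ∈ Ico 0 T := ⟨ht.1, h1⟩
        rw [hV1 t h1.le, hv1 t ht']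
        have h2 := hM₁ t ht' x
        have h3 : |t - T| = T - t := by
          rw [abs_of_nonpos (by linarith)]
          ring
        rw [← h3] at h2
        exact h2.trans (mul_le_mul_of_nonneg_right (le_max_left _ _) hpos)
      · have ht' : t ∈ Ioc T (T + Θ) := ⟨h1, ht.2⟩
        rw [hgt t ht']
        have h2 := hM₂ (t - T) (hsh t ht') x
        have h3 : |t - T| = t - T := abs_of_nonneg (by linarith)
        rw [h3]
        rw [h3] at hpos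
        exact h2.trans (mul_le_mul_of_nonneg_right (le_max_right _ _) hpos)
  choose V hV using hcont
  refine ⟨Ix (ℕ × Bool), e, σI, sI S, Sum.inl 0, T, T + Θ, v, V, C.skew, C.hT, by linarith,
    by rw [hv1 0 h0, C.u0], solD_congr C.sol hv1,
    fun t ht => by rw [hv1 t ht]; exact C.smooth t ht, ?_, ?_, ?_, by linarith, ?_, huniq, ?_⟩
  · intro k T' hT'
    obtain ⟨M, hM⟩ := C.der k T' hT'
    refine ⟨M, fun t ht => ?_⟩
    rw [hv1 t ⟨ht.1, ht.2.trans_lt hT'⟩]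
    exact hM t ht
  · intro t ht
    simp only [gg_gr]
    rw [hv3 t ht, hv1 0 h0, hone]
  · intro t ht
    rw [hv1 t ht]
    linarith [C.enl t ht]
  · intro M
    obtain ⟨t, ht, x, hx⟩ := C.blow M
    exact ⟨t, ht, x, by rw [hv1 t ht]; exact hx⟩
  · intro δ hδ
    obtain ⟨a1, a2, a3, a4, a5, a6, a7, a8, a9, a10⟩ := hV δ hδ
    refine ⟨a1, a2, a3, a4, a5, a6, a7, fun t ht => ?_, a9, a10⟩
    rw [hv0, mul_one]
    exact a8 t ht

end Pool.Agent.Y7.LN
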