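import Pool.Agent.Y7.LN.All2
import Pool.Agent.Y7.LN.Fin3
import Pool.Agent.Y948.LN.Par2
import Pool.Agent.Y261.LN.Sup

/-! Project LN, third form: everything together. -/

set_option autoImplicit false

namespace Pool.Agent.Y7.LN

open Pool.Agent.Y303.EJ

theorem t_FINL3 : S_FINL3 :=
  t_FINL3_of (t_CORL2 Pool.Agent.Y948.LN.t_PAR2 Pool.Agent.Y261.LN.t_SUP) t_END'
    Pool.Agent.Y810.EJ.t_W1 t_W7' Pool.Agent.Y936.EJ.t_WC
    Pool.Agent.Y303.LN.t_GLUE Pool.Agent.Y303.LN.t_AFT Pool.Agent.Y810.LN.t_LIM0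

end Pool.Agent.Y7.LN
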