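import Pool.Agent.Y7.LN.Stm

/-!
Project LN, second part: the rate of the singularity. Statements.
-/

open Set Filter Topology MeasureTheory Metric

set_option autoImplicit false

namespace Pool.Agent.Y7.LN

open Pool.Agent.Y5 (E3 Y Pr)
open Pool.Agent.Y5.D (Ix qd vf3 Init)
open Pool.Agent.Y6.N (Rot lin src ph XSol TSol)
open Pool.Agent.Y6.K (Kz lv)
open Pool.Agent.Y303.SK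
open Pool.Agent.Y303.EJ (SeqE Num dl e0 Sg WeakD ParE)

/-- `Y303.EJ.S_ODEE` with one more conclusion in the first alternative. -/
def S_ODE2 : Prop := ∀ (η : ℝ) (lm L C ℓ : ℕ → ℝ) (B : ℕ → ℕ → ℝ), SeqE η lm L C ℓ B →
  ∃ φ : ℕ → ℝ, (∀ n, 0 < φ n) ∧ ∃ T₁ : ℝ, 0 < T₁ ∧
    ∀ (T : ℝ) (x f : ℕ → ℝ → ℝ), 0 < T →
    (∀ n, ∀ t ∈ Ico 0 T, HasDerivWithinAt (x n)
      (vf3 L C ℓ B (fun m => x m t) n + f n t) (Ico 0 T) t) →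
    (∀ T' < T, ∃ Mx, ∀ t ∈ Icc 0 T', ∀ n, L n ^ 10 * |x n t| ≤ Mx) →
    (∀ t ∈ Ico 0 T, ∑' n, x n t ^ 2 ≤ 1) →
    (∀ n, ∀ t ∈ Ico 0 T, |f n t| ≤ φ 0 * |x n t| + φ n) →
    x 0 0 = 1 → (∀ n, x (n + 1) 0 = 0) →
    T ≤ T₁ ∧ (∀ t ∈ Ico 0 T, 1 - η ≤ ∑' n, x n t ^ 2) ∧
    ((∀ n, (∃ t ∈ Ico 0 T, 9 / 10 ≤ x n t) ∧
        (∃ s ∈ Ico 0 T, ∀ t ∈ Ico s T, |x n t| ≤ dl η n) ∧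
        ∀ t ∈ Ico 0 T, 1 / (dl η (n + 1) * L n) < T - t → ∀ m, n + 3 ≤ m →
          |x m t| ≤ Real.exp (-(lm (m - 1) / 200))) ∨
      ∃ n₀, ∀ t ∈ Ico 0 T, ∀ m, n₀ ≤ m → |x m t| ≤ Real.exp (-(lm (m - 1) / 200)))

/-- slow growth of the parameters -/
def Slow (L : ℕ → ℝ) : Prop := ∀ ε > (0 : ℝ), ∃ n₀, ∀ n ≥ n₀, L (n + 1) ≤ L n ^ (1 + ε)

/-- `Y303.EJ.S_PARE` with slow growth. -/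
def S_PAR2 : Prop := ∀ a κ h q' G δ η : ℝ, 0 < a → 0 < κ → 0 < h → 0 < q' → 0 < G → 0 < δ →
  0 < η → η ≤ 1 / 100 → ∃ r α ε lm L : ℕ → ℝ, ParE a κ h q' G δ η r α ε lm L ∧ Slow L

/-- The thresholds. -/
def S_THR : Prop := ∀ (η : ℝ) (lm L C ℓ : ℕ → ℝ) (B : ℕ → ℕ → ℝ), SeqE η lm L C ℓ B →
  Num η lm L C ℓ → Slow L →
  (∀ ε > (0 : ℝ), ∃ n₀, ∀ n ≥ n₀, 1 / (dl η (n + 1) * L n) ≤ L n ^ (-1 + ε)) ∧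
  ∀ ε > (0 : ℝ), ∃ n₀, ∀ n ≥ n₀, 2 * wd lm L n ≤ L n ^ (-1 + ε)

/-- From the thresholds to the rate. -/
def S_RT : Prop := ∀ (L b : ℕ → ℝ) (Θ X : ℝ) (f : ℝ → ℝ), 0 < Θ → 0 ≤ X → (∀ n, 1 ≤ L n) →
  Monotone L → Tendsto L atTop atTop → Slow L → (∀ n, 0 < b n) →
  (∀ ε > (0 : ℝ), ∃ n₀, ∀ n ≥ n₀, b n ≤ L n ^ (-1 + ε)) →
  (∀ k, ∀ τ ∈ Ioc 0 Θ, b k < τ → f τ ≤ X * (L (k + 3) ^ (3 / 5 : ℝ) + 1)) →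
  ∀ ε > (0 : ℝ), ∃ M, ∀ τ ∈ Ioc 0 Θ, f τ ≤ M * τ ^ (-(3 / 5 + ε))

/-- The sum of the main modes. -/
def S_SUMB : Prop := ∀ (η : ℝ) (lm L C ℓ : ℕ → ℝ) (B : ℕ → ℕ → ℝ) (X : ℝ) (w : ℕ → ℝ),
  SeqE η lm L C ℓ B → Num η lm L C ℓ → 0 ≤ X →
  (∀ n, 0 ≤ w n ∧ w n ≤ X * L (n + 1) ^ (3 / 5 : ℝ)) → ∃ Z, 0 ≤ Z ∧ ∀ (k : ℕ) (x : ℕ → ℝ),
    (∀ m, |x m| ≤ 1) → (∀ m, k + 3 ≤ m → |x m| ≤ Real.exp (-(lm (m - 1) / 300))) →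
    Summable (fun m => |x m| * w m) ∧ ∑' m, |x m| * w m ≤ Z * (L (k + 3) ^ (3 / 5 : ℝ) + 1)

/-- The size of the main modes. -/
def S_SUP : Prop := ∀ (p : E3) (Ψ H : E3 → E3) (a κ h q q' G δ η : ℝ) (r α ε lm L : ℕ → ℝ),
  Pk Ψ H a κ h q q' → ParE a κ h q' G δ η r α ε lm L → ∃ X : ℝ, 0 ≤ X ∧ ∀ n,
    nk 0 (psi p Ψ H r α ε n) ≤ X * L (n + 1) ^ (3 / 5 : ℝ)

end Pool.Agent.Y7.LN
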