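import Pool.Agent.Y7.LN.Fin
import Pool.Agent.Y303.EJ.Res
import Pool.Agent.Y303.LN.Glue
import Pool.Agent.Y303.LN.Aft
import Pool.Agent.Y287.LN.WN
import Pool.Agent.Y71.LN.Chb
import Pool.Agent.Y492.LN.Lipb
import Pool.Agent.Y339.LN.POSB
import Pool.Agent.Y219.LN.Decb
import Pool.Agent.Y907.LN.Enb
import Pool.Agent.Y868.LN.Barb
import Pool.Agent.Y689.LN.Indb
import Pool.Agent.Y592.LN.GalG
import Pool.Agent.Y799.LN.BOOTG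
import Pool.Agent.Y38.LN.Limg
import Pool.Agent.Y331.LN.Lipt
import Pool.Agent.Y810.LN.Lim0

/-! Project LN: everything together. -/

set_option autoImplicit false

namespace Pool.Agent.Y7.LN

open Pool.Agent.Y303.EJ

theorem t_INDB' : S_INDB :=
  Pool.Agent.Y689.LN.t_INDB Pool.Agent.Y492.LN.t_LIPB
    (Pool.Agent.Y219.LN.t_DECB Pool.Agent.Y492.LN.t_LIPB
      (Pool.Agent.Y339.LN.POSB.t_POSB Pool.Agent.Y492.LN.t_LIPB))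
    Pool.Agent.Y907.LN.t_ENB Pool.Agent.Y868.LN.t_BARB

theorem t_BACK : S_BACK :=
  t_BACK_of Pool.Agent.Y44.EJ.t_NUM Pool.Agent.Y287.LN.t_WN Pool.Agent.Y71.LN.t_CHB t_INDB'
    Pool.Agent.Y592.LN.t_GALG Pool.Agent.Y799.LN.t_BOOTG Pool.Agent.Y38.LN.LIMG.t_LIMG
    Pool.Agent.Y812.EJ.t_PBE

theorem t_FWD : S_FWD :=
  t_FWD_of Pool.Agent.Y421.SK.t_GAL3 Pool.Agent.Y987.EJ.t_LIME Pool.Agent.Y523.EJ.t_PERSE
    Pool.Agent.Y523.EJ.t_LOCE t_ODEE' Pool.Agent.Y812.EJ.t_PBE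

theorem t_CORL : S_CORL :=
  t_CORL_of t_FWD t_BACK Pool.Agent.Y799.LN.t_BOOTG Pool.Agent.Y331.LN.t_LIPT
    Pool.Agent.Y448.SK.t_PK Pool.Agent.Y44.EJ.t_PARE Pool.Agent.Y303.SK.t_BAS
    Pool.Agent.Y317.SK.t_FORM Pool.Agent.Y686.EJ.t_MME t_INTE Pool.Agent.Y419.EJ.t_DERBE t_CONCE
    Pool.Agent.Y427.SK.t_SER Pool.Agent.Y500.SK.t_ENER Pool.Agent.Y936.EJ.t_WC
    Pool.Agent.Y44.EJ.t_NUM Pool.Agent.Y287.LN.t_WN

theorem t_FINL : S_FINL :=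
  t_FINL_of t_CORL t_END' Pool.Agent.Y810.EJ.t_W1 t_W7' Pool.Agent.Y936.EJ.t_WC
    Pool.Agent.Y303.LN.t_GLUE Pool.Agent.Y303.LN.t_AFT Pool.Agent.Y810.LN.t_LIM0

end Pool.Agent.Y7.LN
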