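import Pool.Agent.Y7.LN.Back

/-! Project LN: the modes after the return of the energy, with the size of the far modes. -/

open Set Filter Topology MeasureTheory

set_option autoImplicit false

namespace Pool.Agent.Y7.LN

open Pool.Agent.Y5 (Y)
open Pool.Agent.Y5.D (Ix qd vf3 Init)
open Pool.Agent.Y6.N
open Pool.Agent.Y6.K (Kz lv)
open Pool.Agent.Y6.N.Bl (fin_lv en_main abs_le_one pf)
open Pool.Agent.Y303.SK
open Pool.Agent.Y303.EJ (SeqE dl Num S_NUM S_PBE Q)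
open Pool.Agent.Y303.EJ.Bw

/-- The modes after the return of the energy: initial values `y` (small), an additional amount
`q ^ 2` of energy comes from infinity. -/
def S_BACK2 : Prop := ∀ (J : Type) (g o : J → ℕ) (σ : J → J) (τ : J → ℝ)
  (η : ℝ) (lm L C ℓ ρ : ℕ → ℝ) (B : ℕ → ℕ → ℝ) (R E : Ix J → ℝ) (D : Ix J → Ix J → ℝ)
  (c : Ix J → Ix J → Ix J → ℝ) (β₀ : J → ℝ), KD g L C ℓ ρ B R E D c → SeqE η lm L C ℓ B →
  Rot o σ τ → (∀ j, 0 < β₀ j) → ∃ (Θ : ℝ) (ε : J → ℝ) (H : ℕ → (ℕ → ℝ) → ℝ), 0 < Θ ∧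
    (∀ j, 0 < ε j) ∧ (∀ m s s', (∀ i, i < m → s i = s' i) → H m s = H m s') ∧
    ∀ S : ℕ → ℝ, (∀ m, 1 ≤ S m) → (∀ m, H m S ≤ S m) → ∀ (y : Ix J → ℝ) (q : ℝ),
      (∀ j, |y (Sum.inr j)| ≤ ε j) → (∀ n, |y (Sum.inl n)| ≤ dl η n) →
      Summable (fun a => y a ^ 2) → 1 / 2 ≤ q → ∑' a, y a ^ 2 + q ^ 2 ≤ 1 →
      ∃ z : Ix J → ℝ → ℝ, (∀ i, z i 0 = y i) ∧
        (∀ i, ∃ P, 0 ≤ P ∧ ∀ s ∈ Icc (0 : ℝ) Θ, ∀ t ∈ Icc (0 : ℝ) Θ,
          |z i t - z i s| ≤ P * |t - s|) ∧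
        (∀ t ∈ Icc (0 : ℝ) Θ, Summable (fun a => z a t ^ 2) ∧
          ∑' a, z a t ^ 2 ≤ ∑' a, y a ^ 2 + q ^ 2) ∧
        (∀ j, ∀ t ∈ Icc (0 : ℝ) Θ, |z (Sum.inr j) t| ≤ β₀ j) ∧
        (∀ k : ℕ, ∀ θ ∈ Ioc 0 Θ, ∃ X, ∀ t ∈ Icc θ Θ, ∀ n, L n ^ k * |z (Sum.inl n) t| ≤ X) ∧
        (∀ i, ∀ t ∈ Ioc 0 Θ, HasDerivWithinAt (z i)
          (Kz S o σ τ (fun a => z a t) i - lin D (fun a => z a t) i + qd c (fun a => z a t) i)
          (Ioc 0 Θ) t) ∧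
        (∀ n, ∃ t ∈ Ioc (0 : ℝ) Θ, t ≤ 2 * wd lm L n ∧
          z (Sum.inl n) t ≤ -(q - dl η n / 100)) ∧
        ∀ n, ∀ t ∈ Ioc (0 : ℝ) Θ, 2 * wd lm L n < t → ∀ m, n + 3 ≤ m →
          |z (Sum.inl m) t| ≤ Real.exp (-(lm (m - 1) / 300))

theorem t_BACK2_of (hNUM : S_NUM) (hWN : S_WN) (hCHB : S_CHB) (hINDB : S_INDB) (hGALG : S_GALG)
    (hBOOTG : S_BOOTG) (hLIMG : S_LIMG) (hPB : S_PBE) : S_BACK2 := by
  intro J g o σ τ η lm L C ℓ ρ B R E D c β₀ K hq Rt hβ₀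
  have nm := hNUM η lm L C ℓ B hq
  have wn := hWN η lm L C ℓ B hq nm
  have hpos : ∀ m, 0 < L m := fun m => lt_of_lt_of_le one_pos (L_one hq m)
  have hφ0 : ∀ n, 0 < ph lm n := fun n => Real.exp_pos _
  obtain ⟨β₂, hβ₂, hs₂, hpb'⟩ := hPB J g o σ τ η lm L C ℓ ρ (ph lm) B R E D c K hq Rt hφ0
  set β : J → ℝ := fun j => min (β₂ j) (β₀ j) with hβdef
  have hβ0 : ∀ j, 0 < β j := fun j => lt_min (hβ₂ j) (hβ₀ j)
  have hβs : Summable β :=
    Summable.of_nonneg_of_le (fun j => (hβ0 j).le) (fun j => min_le_left _ _) hs₂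
  have hpb : ∀ z : Ix J → ℝ, Summable (fun a => z a ^ 2) → ∑' a, z a ^ 2 ≤ 1 →
      (∀ j, |z (Sum.inr j)| ≤ β j) → ∀ n,
      Summable (fun p : Ix J × Ix J => c (Sum.inl n) p.1 p.2 * z p.1 * z p.2) →
      |qd c z (Sum.inl n) - lin D z (Sum.inl n) - vf3 L C ℓ B (fun m => z (Sum.inl m)) n|
        ≤ ph lm 0 * |z (Sum.inl n)| + ph lm n := fun z h1 h2 h3 n h4 =>
    hpb' z h1 h2 (fun j => (h3 j).trans (min_le_left _ _)) n h4
  have hlm0 : (10 : ℝ) ^ 30 ≤ lm 0 := nm.lm1 0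
  set Θ₂ : ℝ := lm 0 / L 0 with hΘ₂
  have hΘ₂0 : 0 < Θ₂ := div_pos (by linarith) (hpos 0)
  have hΘ₂1 : L 0 * Θ₂ ≤ lm 0 := by
    rw [hΘ₂, mul_div_cancel₀ _ (hpos 0).ne']
  set Θ : ℝ := Θ₂ / 2 with hΘ
  have hΘ0 : 0 < Θ := half_pos hΘ₂0
  have hΘle : Θ ≤ Θ₂ := by linarith
  obtain ⟨ε, H, hε, hH, hboot⟩ := hBOOTG J g o σ τ L C ℓ ρ B R E D c Θ₂ β K Rt hΘ₂0 hβ0
  refine ⟨Θ, ε, H, hΘ0, hε, hH, ?_⟩
  intro S hS1 hSH y q hyr hyl hys hq12 hsum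
  classical
  have hDpos : ∀ (s : Finset (Ix J)) (z : Ix J → ℝ),
      0 ≤ ∑ a ∈ s, ∑ b ∈ s, D a b * z a * z b := by
    intro s z
    refine le_trans (Finset.sum_nonneg fun a _ => ?_) (K.coer s z)
    refine mul_nonneg ?_ (sq_nonneg _)
    rcases a with n | w
    · exact K.ρ0 n
    · exact le_rfl
  -- the initial values of the truncated systems
  set yN : ℕ → Ix J → ℝ := fun N i =>
    if lv o i ≤ N then (if i = Sum.inl N then -q else y i) else 0 with hyN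
  have hyN0 : ∀ N i, N < lv o i → yN N i = 0 := by
    intro N i hi
    simp only [hyN]
    rw [if_neg (not_le.2 hi)]
  have hyNle : ∀ N i, yN N i ^ 2 ≤ y i ^ 2 + (if i = Sum.inl N then q ^ 2 else 0) := by
    intro N i
    simp only [hyN]
    split_ifs
    · nlinarith [sq_nonneg (y i)]
    · linarith
    · nlinarith [sq_nonneg (y i), sq_nonneg q]
    · nlinarith [sq_nonneg (y i)]
  have hyNs : ∀ N, Summable (fun i => yN N i ^ 2) ∧ ∑' i, yN N i ^ 2 ≤ ∑' a, y a ^ 2 + q ^ 2 := by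
    intro N
    have h1 : HasSum (fun i : Ix J => if i = Sum.inl N then q ^ 2 else 0) (q ^ 2) := by
      have := hasSum_ite_eq (Sum.inl N : Ix J) (q ^ 2)
      exact this
    have h2 := hys.hasSum.add h1
    have h3 : Summable (fun i => yN N i ^ 2) :=
      Summable.of_nonneg_of_le (fun i => sq_nonneg _) (hyNle N) h2.summable
    exact ⟨h3, (h3.tsum_le_tsum (hyNle N) h2.summable).trans h2.tsum_eq.le⟩
  choose Z hZ hZ0 using fun N => hGALG J o σ τ D c Θ₂ S Rt hDpos K.anti hΘ₂0 N (yN N) (hyN0 N)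
    ((hyNs N).2.trans hsum)
  have hb : ∀ N j, ∀ t ∈ Icc (0 : ℝ) Θ₂, |Z N (Sum.inr j) t| ≤ β j := by
    intro N
    refine hboot S hS1 hSH N (Z N) (hZ N) fun j => ?_
    rw [hZ0 N]
    simp only [hyN]
    split_ifs with h1 h2
    · exact absurd h2 (by simp)
    · exact hyr j
    · rw [abs_zero]; exact (hε j).le
  have hch : ∀ N, Cb η lm L C ℓ B N Θ₂ (fun n => Z N (Sum.inl n))
      (fun n t => √(Y (fun n => Z N (Sum.inl n)) n t)) := fun N =>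
    chainG hCHB hq nm wn Rt hpb hΘ₂0 hΘ₂1 (hZ N) (hb N)
  -- the times
  have hsq : (10 : ℝ) ^ 15 ≤ √(lm 0) := by
    rw [show (10 : ℝ) ^ 15 = √(10 ^ 30) by
      rw [show (10 : ℝ) ^ 30 = (10 ^ 15) ^ 2 by norm_num, Real.sqrt_sq (by positivity)]]
    exact Real.sqrt_le_sqrt hlm0
  have hwd0 : 2 * wd lm L 0 < Θ := by
    have h1 : √(lm 0) * √(lm 0) = lm 0 := Real.mul_self_sqrt (by linarith)
    rw [hΘ, hΘ₂, wd, div_div, mul_div_assoc', div_lt_div_iff₀ (hpos 0) (by linarith [hpos 0])]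
    have h2 : 2 * √(lm 0) * 2 < lm 0 := by nlinarith
    nlinarith [hpos 0]
  have hsN0 : ∀ N n, sN lm L N n ≤ 2 * wd lm L 0 := fun N n =>
    (sN_anti wn N (Nat.zero_le n)).trans (wn.ws N 0)
  have hind : ∀ N, (∀ n, n ≤ N → Z N (Sum.inl n) (sN lm L N n) ≤ -(q - dl η n / 100)) ∧
      ∀ k, k + 2 ≤ N → ∀ u ∈ Ico (sN lm L N k) Θ₂,
        √(Y (fun n => Z N (Sum.inl n)) (k + 2) u) ≤ Real.exp (-(lm (k + 1) / 300)) := by
    intro N
    refine hINDB η lm L C ℓ B N Θ₂ _ _ (hch N) q hq12 ?_ ?_ ?_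
    · rw [hZ0 N]
      simp only [hyN]
      simp [lv]
    · intro m hm
      rw [hZ0 N]
      simp only [hyN]
      rw [if_pos (show lv o (Sum.inl m : Ix J) ≤ N from hm.le), if_neg]
      · have h1 := (le_abs_self _).trans (hyl m)
        exact h1.trans (nm.d1 m)
      · intro h1
        exact hm.ne (Sum.inl_injective h1)
    · exact lt_of_le_of_lt (hsN0 N 0) (by linarith)
  -- the limit
  set U : Ultrafilter ℕ := Filter.hyperfilter ℕ with hU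
  have hUtop : (U : Filter ℕ) ≤ atTop := Nat.hyperfilter_le_atTop
  have hZ' : ∀ N, TSG Θ S o σ τ D c N (Z N) := fun N => (hZ N).mono hΘle
  have hb' : ∀ N j, ∀ t ∈ Icc (0 : ℝ) Θ, |Z N (Sum.inr j) t| ≤ β j := fun N j t ht =>
    hb N j t ⟨ht.1, ht.2.trans hΘle⟩
  obtain ⟨z, hl, -, hbz, hlip, hder⟩ := hLIMG J g o σ τ η lm L C ℓ ρ B R E D c Θ S β K hq Rt hΘ0
    (fun j => (hβ0 j).le) hβs Z hZ' hb' U hUtop
  -- smallness of the high modes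
  have hhigh0 : ∀ k₀ : ℕ, ∀ t ∈ Ioc 0 Θ, 2 * wd lm L k₀ < t → ∀ N m, k₀ ≤ m →
      |Z N (Sum.inl (m + 2)) t| ≤ Real.exp (-(lm (m + 1) / 300)) := by
    intro k₀ t ht hk₀ N m hm
    rcases le_or_gt (m + 2) N with hmN | hmN
    · have h2 : sN lm L N m ≤ t := by
        have h3 : sN lm L N m ≤ sN lm L N k₀ := sN_anti wn N hm
        have h4 := wn.ws N k₀
        linarith
      have htΘ : t ∈ Ico 0 Θ₂ := ⟨ht.1.le, lt_of_le_of_lt ht.2 (by linarith)⟩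
      have h5 := (hind N).2 m hmN t ⟨h2, htΘ.2⟩
      refine le_trans ?_ h5
      have h6 := (hch N).Rsq (m + 2) t htΘ
      have h7 := (hch N).R0 (m + 2) t htΘ
      refine abs_le_of_sq_le_sq' ?_ h7 |> abs_le.2
      nlinarith [sq_nonneg (√(Y (fun n => Z N (Sum.inl n)) (m + 2 + 1) t))]
    · rw [(hZ N).zero (Sum.inl (m + 2)) hmN t, abs_zero]
      exact (Real.exp_pos _).le
  have hhigh : ∀ θ ∈ Ioc 0 Θ, ∃ k₀ : ℕ, ∀ N m, k₀ ≤ m → ∀ t ∈ Icc θ Θ,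
      |Z N (Sum.inl (m + 2)) t| ≤ Real.exp (-(lm (m + 1) / 300)) := by
    intro θ hθ
    have h1 : ∀ᶠ n in atTop, wd lm L n < θ / 2 := wn.wlim.eventually (gt_mem_nhds (half_pos hθ.1))
    obtain ⟨k₀, hk₀⟩ := h1.exists
    exact ⟨k₀, fun N m hm t ht => hhigh0 k₀ t ⟨hθ.1.trans_le ht.1, ht.2⟩ (by linarith [ht.1]) N m
      hm⟩
  have hone : ∀ N i, ∀ t ∈ Icc 0 Θ, |Z N i t| ≤ 1 := fun N i t ht =>
    abs_le_one (summG Rt (hZ' N) t) ((hZ' N).le_one ht) i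
  have hreg : ∀ k : ℕ, ∀ θ ∈ Ioc 0 Θ, ∃ X, ∀ N, ∀ t ∈ Icc θ Θ, ∀ n,
      L n ^ k * |Z N (Sum.inl n) t| ≤ X := by
    intro k θ hθ
    obtain ⟨k₀, hk₀⟩ := hhigh θ hθ
    have h1 : Tendsto (fun n => (k : ℝ) * dl η n / 10 ^ 6) atTop
        (𝓝 ((k : ℝ) * 0 / 10 ^ 6)) := ((dl_lim η).const_mul _).div_const _
    have h2 : ∀ᶠ n in atTop, (k : ℝ) * dl η n / 10 ^ 6 < 1 / 300 :=
      h1.eventually (gt_mem_nhds (by norm_num))
    obtain ⟨k₁, hk₁⟩ := Filter.eventually_atTop.1 h2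
    set n₁ := max k₀ k₁ + 2 with hn₁
    refine ⟨L n₁ ^ k + 1, fun N t ht n => ?_⟩
    have hLk : 0 < L n₁ ^ k := pow_pos (hpos _) k
    rcases lt_or_ge n n₁ with hn | hn
    · have h3 := hone N (Sum.inl n) t ⟨hθ.1.le.trans ht.1, ht.2⟩
      have h4 : L n ^ k ≤ L n₁ ^ k := pow_le_pow_left₀ (hpos n).le (L_mono hq hn.le) k
      have h5 : L n ^ k * |Z N (Sum.inl n) t| ≤ L n₁ ^ k * 1 :=
        mul_le_mul h4 h3 (abs_nonneg _) hLk.le
      linarith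
    · obtain ⟨m, rfl⟩ : ∃ m, n = m + 2 := ⟨n - 2, by omega⟩
      have hm0 : k₀ ≤ m := by
        have := le_max_left k₀ k₁
        omega
      have hm1 : k₁ ≤ m + 1 := by
        have := le_max_right k₀ k₁
        omega
      have h3 := hk₀ N m hm0 t ht
      have h4 : L (m + 2) ^ k ≤ Q η lm (m + 1) ^ k :=
        pow_le_pow_left₀ (hpos _).le (nm.QL (m + 1) (m + 2) (by omega)) k
      have h5 := nm.Qexp (m + 1) k (-(1 / 300)) 0 (by have := hk₁ (m + 1) hm1; linarith)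
      rw [zero_mul, Real.exp_zero] at h5
      have h6 : L (m + 2) ^ k * |Z N (Sum.inl (m + 2)) t| ≤
          Q η lm (m + 1) ^ k * Real.exp (-(lm (m + 1) / 300)) :=
        mul_le_mul h4 h3 (abs_nonneg _) (by unfold Q; positivity)
      have h7 : Real.exp (-(1 / 300) * lm (m + 1)) = Real.exp (-(lm (m + 1) / 300)) := by
        congr 1; ring
      rw [h7] at h5
      linarith
  have hlimle : ∀ i, ∀ t ∈ Icc (0 : ℝ) Θ, ∀ a X : ℝ, (∀ N, a * |Z N i t| ≤ X) →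
      a * |z i t| ≤ X := by
    intro i t ht a X h
    have h1 : Tendsto (fun N => a * |Z N i t|) U (𝓝 (a * |z i t|)) :=
      (hl i t ht).abs.const_mul _
    exact le_of_tendsto h1 (Eventually.of_forall h)
  refine ⟨z, ?_, ?_, ?_, ?_, ?_, ?_, ?_, ?_⟩
  · -- initial values
    intro i
    have h1 : Tendsto (fun N => Z N i 0) U (𝓝 (z i 0)) := hl i 0 ⟨le_rfl, hΘ0.le⟩
    have h2 : Tendsto (fun N => Z N i 0) U (𝓝 (y i)) := by
      refine tendsto_const_nhds.congr' ?_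
      have h3 : ∀ᶠ N in (U : Filter ℕ), lv o i < N := hUtop (eventually_gt_atTop _)
      filter_upwards [h3] with N hN
      rw [hZ0 N]
      simp only [hyN]
      rw [if_pos hN.le, if_neg]
      intro h4
      rw [h4] at hN
      exact lt_irrefl _ hN
    exact tendsto_nhds_unique h1 h2
  · intro i
    obtain ⟨P, hP, h1⟩ := hlip i
    exact ⟨P, hP, fun s hs t ht => (h1 s hs t ht).1⟩
  · -- energy
    intro t ht
    have h1 : ∀ F : Finset (Ix J), ∑ a ∈ F, z a t ^ 2 ≤ ∑' a, y a ^ 2 + q ^ 2 := by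
      intro F
      have h2 : Tendsto (fun N => ∑ a ∈ F, Z N a t ^ 2) U (𝓝 (∑ a ∈ F, z a t ^ 2)) :=
        tendsto_finsetSum F fun a _ => (hl a t ht).pow 2
      refine le_of_tendsto h2 (Eventually.of_forall fun N => ?_)
      have h3 : ∑' a, Z N a 0 ^ 2 ≤ ∑' a, y a ^ 2 + q ^ 2 := by
        refine le_trans (le_of_eq ?_) (hyNs N).2
        exact tsum_congr fun a => by rw [hZ0 N]
      exact ((summG Rt (hZ' N) t).sum_le_tsum F fun a _ => sq_nonneg _).trans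
        (((hZ' N).energy t ht).trans h3)
    have h4 : Summable (fun a => z a t ^ 2) :=
      summable_of_sum_le (fun a => sq_nonneg _) h1
    exact ⟨h4, h4.tsum_le_of_sum_le h1⟩
  · exact fun j t ht => (hbz j t ht).trans (min_le_right _ _)
  · intro k θ hθ
    obtain ⟨X, hX⟩ := hreg k θ hθ
    refine ⟨X, fun t ht n => ?_⟩
    exact hlimle (Sum.inl n) t ⟨hθ.1.le.trans ht.1, ht.2⟩ _ X fun N => hX N t ht n
  · -- the equation
    intro i t ht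
    have hθ : min (t / 2) (Θ / 2) ∈ Ioc 0 Θ :=
      ⟨lt_min (half_pos ht.1) (half_pos hΘ0), (min_le_right _ _).trans (by linarith)⟩
    set θ := min (t / 2) (Θ / 2) with hθdef
    have hθt : θ < t := lt_of_le_of_lt (min_le_left _ _) (by linarith [ht.1])
    have hθΘ : θ < Θ := lt_of_le_of_lt (min_le_right _ _) (by linarith)
    obtain ⟨X, hX⟩ := hreg 1 θ hθ
    have h1 := hder θ hθ.1.le hθΘ ⟨X, Eventually.of_forall fun N s hs n => by
      have := hX N s hs n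
      rwa [pow_one] at this⟩ i t ⟨hθt.le, ht.2⟩
    refine h1.mono_of_mem_nhdsWithin ?_
    refine mem_nhdsWithin.2 ⟨Ioi θ, isOpen_Ioi, hθt, ?_⟩
    rintro s ⟨hs1, hs2⟩
    exact ⟨le_of_lt hs1, hs2.2⟩
  · -- the times of arrival
    intro n
    obtain ⟨t, ht0, ht1, ht2⟩ := sN_lim wn n
    have htΘ : t ≤ Θ := by
      have h1 : t ≤ 2 * wd lm L 0 := le_of_tendsto' ht2 fun N => hsN0 N n
      linarith
    have hsΘ : ∀ N, sN lm L N n ∈ Icc (0 : ℝ) Θ := fun N =>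
      ⟨sN_nonneg wn N n, (hsN0 N n).trans hwd0.le⟩
    refine ⟨t, ⟨ht0, htΘ⟩, ht1, ?_⟩
    obtain ⟨P, hP, hPl⟩ := hlip (Sum.inl n)
    have h3 : Tendsto (fun N => Z N (Sum.inl n) t) U (𝓝 (z (Sum.inl n) t)) :=
      hl (Sum.inl n) t ⟨ht0.le, htΘ⟩
    have h4 : Tendsto (fun N => -(q - dl η n / 100) + P * |t - sN lm L N n|) U
        (𝓝 (-(q - dl η n / 100) + P * |t - t|)) :=
      (((tendsto_const_nhds.sub (ht2.mono_left hUtop)).abs.const_mul P).const_add _)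
    rw [sub_self, abs_zero, mul_zero, add_zero] at h4
    refine le_of_tendsto_of_tendsto h3 h4 ?_
    have h5 : ∀ᶠ N in (U : Filter ℕ), n ≤ N := hUtop (eventually_ge_atTop _)
    filter_upwards [h5] with N hN
    have h6 := (hind N).1 n hN
    have h7 := (hPl (sN lm L N n) (hsΘ N) t ⟨ht0.le, htΘ⟩).2 N
    have h8 := (le_abs_self _).trans h7
    linarith
  · intro n t ht hn m hm
    obtain ⟨m', rfl⟩ : ∃ m', m = m' + 2 := ⟨m - 2, by omega⟩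
    have h1 := hlimle (Sum.inl (m' + 2)) t ⟨ht.1.le, ht.2⟩ 1 _ fun N => by
      rw [one_mul]
      exact hhigh0 n t ht hn N m' (by omega)
    rwa [one_mul] at h1

end Pool.Agent.Y7.LN
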