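import Pool.Agent.Y7.LN.Main
import Pool.Agent.Y7.LN.Fwd2
import Pool.Agent.Y7.LN.Back2

/-! Project LN: the solution before `T` and the modes after `T`, with the rate of the singularity
(the construction is the one of `Pool.Agent.Y7.LN.Main`). -/

open Set Filter Topology MeasureTheory Metric

set_option autoImplicit false

namespace Pool.Agent.Y7.LN

open Pool.Agent.Y5 (E3)
open Pool.Agent.Y5.D (Ix qd vf3 Init)
open Pool.Agent.Y6.N
open Pool.Agent.Y6.K (Kz lv)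
open Pool.Agent.Y303.SK
open Pool.Agent.Y303.EJ (SeqE dl SolE S_PARE S_MME S_INTE S_DERBE S_CONCE S_WC S_NUM Core ParE
  pare_mono small_mul)
open Pool.Agent.Y303.EJ

/-- The solution before `T` and the modes after `T`, with the rate. -/
def S_CORL2 : Prop := ∀ (ν : ℝ) (Ω : Set E3) (η : ℝ), 0 < ν → IsOpen Ω →
  Bornology.IsBounded Ω → Ω.Nonempty → 0 < η → η ≤ 1 / 100 →
  ∃ (e : Ix (ℕ × Bool) → E3 → E3) (S : ℕ → ℝ) (T : ℝ) (u : ℝ → E3 → E3) (Θ : ℝ) (W : ℕ → ℝ)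
    (y : Ix (ℕ × Bool) → ℝ), Core Ω ν η e σI (sI S) (Sum.inl 0) T u ∧ 0 < Θ ∧
    Tendsto W atTop (𝓝 0) ∧ (∀ i, Tendsto (fun t => ipr (u t) (e i)) (𝓝[<] T) (𝓝 (y i))) ∧
    Summable (fun i => y i ^ 2) ∧ ∑' i, y i ^ 2 ≤ η ∧
    (∀ ε' > (0 : ℝ), ∃ M, ∀ t ∈ Ico 0 T, ∀ x, ‖u t x‖ ≤ M * (T - t) ^ (-(3 / 5 + ε'))) ∧
    ∀ q : ℝ, 1 / 2 ≤ q → ∑' i, y i ^ 2 + q ^ 2 ≤ 1 → ∃ z, Bk ν η e S Θ W y q z ∧
      ∀ ε' > (0 : ℝ), ∃ M, ∀ t ∈ Ioc 0 Θ, ∀ x,
        ‖ser e (fun i => z i t) x‖ ≤ M * t ^ (-(3 / 5 + ε'))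

/-- the sum of all the modes -/
lemma sum_rate (hSUMB : S_SUMB) {η : ℝ} {lm L C ℓ : ℕ → ℝ} {B : ℕ → ℕ → ℝ}
    (hq : SeqE η lm L C ℓ B) (nm : Num η lm L C ℓ) {ψ : ℕ → E3 → E3}
    {w : ℕ × Bool → E3 → E3} {X : ℝ} (hX0 : 0 ≤ X)
    (hX : ∀ n, nk 0 (ψ n) ≤ X * L (n + 1) ^ (3 / 5 : ℝ)) :
    ∃ Z, 0 ≤ Z ∧ ∀ (k : ℕ) (z : Ix (ℕ × Bool) → ℝ), (∀ i, |z i| ≤ 1) →
      (∀ m, k + 3 ≤ m → |z (Sum.inl m)| ≤ Real.exp (-(lm (m - 1) / 300))) →
      (∀ j, |z (Sum.inr j)| ≤ bet w j) →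
      ∑' i, |z i| * nk 0 (em ψ w i) ≤ Z * (L (k + 3) ^ (3 / 5 : ℝ) + 1) := by
  obtain ⟨Z, hZ0, hZ⟩ := hSUMB η lm L C ℓ B X (fun n => nk 0 (ψ n)) hq nm hX0
    fun n => ⟨nk_nonneg _ _, hX n⟩
  have hb0 : 0 ≤ ∑' j, bet w j * nk 0 (w j) :=
    tsum_nonneg fun j => mul_nonneg (bet_pos w j).le (nk_nonneg _ _)
  refine ⟨Z + ∑' j, bet w j * nk 0 (w j), by linarith, fun k z h1 h2 h3 => ?_⟩
  obtain ⟨a1, a2⟩ := hZ k (fun m => z (Sum.inl m)) (fun m => h1 _) h2
  have hle : ∀ j, |z (Sum.inr j)| * nk 0 (w j) ≤ bet w j * nk 0 (w j) := fun j =>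
    mul_le_mul_of_nonneg_right (h3 j) (nk_nonneg _ _)
  have a3 : Summable (fun j => |z (Sum.inr j)| * nk 0 (w j)) :=
    Summable.of_nonneg_of_le (fun j => mul_nonneg (abs_nonneg _) (nk_nonneg _ _)) hle (bet_nk w 0)
  have a4 : ∑' j, |z (Sum.inr j)| * nk 0 (w j) ≤ ∑' j, bet w j * nk 0 (w j) :=
    a3.tsum_le_tsum hle (bet_nk w 0)
  have b1 : HasSum ((fun i => |z i| * nk 0 (em ψ w i)) ∘ Sum.inl)
      (∑' m, |z (Sum.inl m)| * nk 0 (ψ m)) := a1.hasSum
  have b2 : HasSum ((fun i => |z i| * nk 0 (em ψ w i)) ∘ Sum.inr)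
      (∑' j, |z (Sum.inr j)| * nk 0 (w j)) := a3.hasSum
  rw [(HasSum.sum b1 b2).tsum_eq]
  have hL : 0 ≤ L (k + 3) ^ (3 / 5 : ℝ) :=
    Real.rpow_nonneg (le_trans zero_le_one (Bw.L_one hq _)) _
  nlinarith

theorem t_CORL2_of (hFWD : S_FWD2) (hBACK : S_BACK2) (hBOOTG : S_BOOTG) (hLIPT : S_LIPT)
    (hTHR : S_THR) (hRT : S_RT) (hSUMB : S_SUMB) (hSUP : S_SUP)
    (hPK : S_PK) (hPAR : S_PAR2) (hBAS : S_BAS)
    (hFORM : S_FORM) (hMM : S_MME) (hINT : S_INTE) (hDERB : S_DERBE) (hCONC : S_CONCE)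
    (hSER : S_SER) (hENER : S_ENER) (hWC : S_WC) (hNUM : S_NUM) (hWN : S_WN) : S_CORL2 := by
  intro ν Ω η hν hΩ hbdΩ hne hη hη1
  obtain ⟨Ψ, H, a, κ, h, q, q', hpk⟩ := hPK
  obtain ⟨p, hp⟩ := hne
  obtain ⟨δ₀, hδ₀, hball⟩ := Metric.isOpen_iff.1 hΩ p hp
  -- parameters
  set G₀ : ℝ := ν * (dirf Ψ Ψ + dirf H H) with hG₀
  have hG₀0 : 0 ≤ G₀ := mul_nonneg hν.le (add_nonneg (dirf_nonneg _) (dirf_nonneg _))
  obtain ⟨r, α, ε, lm, L, hP', hslow⟩ := hPAR a κ h q' (G₀ + 1) (δ₀ / 2) η hpk.a0 hpk.κ0 hpk.h0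
    hpk.q'0 (by linarith) (by linarith) hη hη1
  have hP : ParE a κ h q' G₀ (δ₀ / 2) η r α ε lm L := pare_mono (by linarith) hP'
  have hq'1 : q' < 1 := hpk.qq.trans hpk.q1
  have hrpow : ∀ n, r n ≤ q' ^ n * r 0 := by
    intro n
    induction n with
    | zero => simp
    | succ n ih =>
      refine (hP.rstep n).trans ?_
      rw [pow_succ]
      calc q' * r n ≤ q' * (q' ^ n * r 0) := mul_le_mul_of_nonneg_left ih hpk.q'0.le
        _ = q' ^ n * q' * r 0 := by ring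
  have hr0 : ∀ n, r n ≤ r 0 := by
    intro n
    refine (hrpow n).trans ?_
    have h1 : q' ^ n ≤ 1 := pow_le_one₀ hpk.q'0.le hq'1.le
    have := hP.r0 0
    nlinarith
  have hrlim : Tendsto r atTop (𝓝 0) := by
    have h1 : Tendsto (fun n : ℕ => q' ^ n * r 0) atTop (𝓝 (0 * r 0)) :=
      (tendsto_pow_atTop_nhds_zero_of_lt_one hpk.q'0.le hq'1).mul_const _
    rw [zero_mul] at h1
    exact squeeze_zero (fun n => (hP.r0 n).le) hrpow h1
  -- main modes
  obtain ⟨m1, m2, m3, m4, -⟩ := hMM p Ψ H a κ h q q' G₀ (δ₀ / 2) η r α ε lm L hpk hP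
  set ψ : ℕ → E3 → E3 := psi p Ψ H r α ε with hψ
  have hrδ : ∀ n, r n ≤ δ₀ / 2 := fun n => (hr0 n).trans hP.rδ
  have hcsψ : ∀ n, CS Ω (ψ n) := fun n => (m1 n).mono
    ((ball_subset_ball (by have := hrδ n; linarith)).trans hball)
  have hlow : ∀ n m, n < m → ∃ s θ, Low p (r m) H (ψ n) s θ := by
    intro n m hnm
    rcases (show n + 1 ≤ m from hnm).eq_or_lt with h1 | h1
    · subst h1
      exact ⟨_, _, m2 n⟩
    · exact ⟨_, _, m3 n m h1⟩
  have hzero : ∀ n x, x ∉ ball p (r n) → ψ n x = 0 := fun n x hx => (m1 n).zero_of hx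
  have horth' : ∀ n m, n < m → ipr (ψ n) (ψ m) = 0 := by
    intro n m hnm
    obtain ⟨s, θ, hl⟩ := hlow n m hnm
    have h1 := (hcsψ n).mono (subset_univ Ω)
    exact (hINT p Ψ H a κ h q q' G₀ (δ₀ / 2) η r α ε lm L hpk hP m (ψ n) (ψ n) s θ s θ h1 h1
      hl hl).1
  have horth : ∀ m n, (m = n → ipr (ψ m) (ψ n) = 1) ∧ (m ≠ n → ipr (ψ m) (ψ n) = 0) := by
    intro m n
    refine ⟨fun h1 => by rw [h1]; exact m4 n, fun h1 => ?_⟩
    rcases lt_or_gt_of_ne h1 with h2 | h2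
    · exact horth' m n h2
    · rw [(hFORM.2.1 _ _).1]
      exact horth' n m h2
  -- the other modes
  set y : E3 := p + EuclideanSpace.single (0 : Fin 3) (3 * δ₀ / 4) with hy
  have hpy : dist y p = 3 * δ₀ / 4 := by
    rw [hy, dist_eq_norm, add_sub_cancel_left, EuclideanSpace.norm_single, Real.norm_eq_abs,
      abs_of_pos (by linarith)]
  have hyb : ball y (δ₀ / 4) ⊆ Ω := by
    refine Subset.trans ?_ hball
    intro x hx
    rw [mem_ball] at hx ⊢
    have := dist_triangle x y p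
    linarith
  have hpyb : p ∉ ball y (δ₀ / 4) := by
    rw [mem_ball, dist_comm, hpy]
    linarith
  obtain ⟨w, hw⟩ := hBAS Ω p y (δ₀ / 4) ψ hΩ hp (by linarith) hyb hpyb hcsψ (by
      intro n x hx
      refine hzero n x ?_
      rw [mem_ball] at hx ⊢
      have h1 := dist_triangle y x p
      rw [dist_comm y x] at h1
      have := hrδ n
      linarith) horth (by
      intro ρ' hρ'
      obtain ⟨N, hN⟩ := Filter.eventually_atTop.1 (hrlim.eventually (gt_mem_nhds hρ'))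
      exact ⟨N, fun n hn x hx => hzero n x fun h1 => hx (ball_subset_ball (hN n hn).le h1)⟩)
    (by
      intro n
      refine ⟨Am a r α n, r (n + 2), hP.r0 _, fun x hx => ?_⟩
      have := m3 n (n + 2) le_rfl x hx
      rw [zero_smul, add_zero] at this
      exact this)
  -- the kernel
  obtain ⟨g, ℓ, ρ, R, E, K, hq⟩ := hCONC ν Ω p Ψ H a κ h q q' (δ₀ / 2) η r α ε lm L hν hpk hP
    ((ball_subset_ball (by have := hrδ 0; linarith)).trans hball) (ℕ × Bool) w hw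
  obtain ⟨cβ, hcβ, hcβ1, hsβ, hsβ2⟩ := small_mul (bet_pos w) (bet_summ w) (half_pos hη)
  -- the speeds of the rotation
  obtain ⟨Θ, εb, Hb, hΘ, hεb, hHb, hback⟩ := hBACK (ℕ × Bool) g oo ss tt η lm L _ ℓ ρ _ R E _ _
    (bet w) K hq rot (bet_pos w)
  set β₁ : ℕ × Bool → ℝ := fun j => min (cβ * bet w j) (εb j) with hβ₁
  have hβ₁0 : ∀ j, 0 < β₁ j := fun j => lt_min (mul_pos hcβ (bet_pos w j)) (hεb j)
  obtain ⟨βf, Θf, hβf, hΘf, hfwd⟩ := hFWD (ℕ × Bool) g oo ss tt η lm L _ ℓ ρ _ R E _ _ β₁ K hq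
    rot hβ₁0
  obtain ⟨εf, Hf, hεf, hHf, hbootf⟩ := hBOOTG (ℕ × Bool) g oo ss tt L _ ℓ ρ _ R E _ _ Θf βf K
    rot hΘf hβf
  obtain ⟨S, hS⟩ := exists_rec' (fun m s => max 1 (max (Hf m s) (Hb m s)))
  have htr : ∀ m, ∀ i < m, (fun i => if i < m then S i else 0) i = S i := fun m i hi => if_pos hi
  have hS1 : ∀ m, 1 ≤ S m := fun m => by rw [hS]; exact le_max_left _ _
  have hSf : ∀ m, Hf m S ≤ S m := fun m => by
    conv_rhs => rw [hS]
    rw [hHf m _ S (htr m)]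
    exact (le_max_left _ _).trans (le_max_right _ _)
  have hSb : ∀ m, Hb m S ≤ S m := fun m => by
    conv_rhs => rw [hS]
    rw [hHb m _ S (htr m)]
    exact (le_max_right _ _).trans (le_max_right _ _)
  obtain ⟨T, z, hT, hz, hfar⟩ := hfwd S fun N z hz j t ht =>
    hbootf S hS1 hSf N z (tsg_of hz) (fun j => by rw [hz.init.2.2, abs_zero]; exact (hεf j).le)
      j t ht
  have hoth' : ∀ j, ∀ t ∈ Ico 0 T, |z (Sum.inr j) t| ≤ cβ * bet w j := fun j t ht =>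
    (hz.oth j t ht).trans (min_le_left _ _)
  have hoth : ∀ j, ∀ t ∈ Ico 0 T, |z (Sum.inr j) t| ≤ bet w j := fun j t ht =>
    (hoth' j t ht).trans (by have := bet_pos w j; nlinarith)
  set e : Ix (ℕ × Bool) → E3 → E3 := em ψ w with he
  have hecs : ∀ i, CS Ω (e i) := by
    rintro (n | j)
    · exact hcsψ n
    · exact hw.cs j
  have heorth : ∀ i j, (i = j → ipr (e i) (e j) = 1) ∧ (i ≠ j → ipr (e i) (e j) = 0) := by
    rintro (n | j) (n' | j')
    · refine ⟨fun h1 => (horth n n').1 (Sum.inl_injective h1), fun h1 => (horth n n').2 fun h2 =>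
        h1 (by rw [h2])⟩
    · exact ⟨fun h1 => absurd h1 (by simp), fun _ => hw.perp n j'⟩
    · refine ⟨fun h1 => absurd h1 (by simp), fun _ => ?_⟩
      rw [(hFORM.2.1 _ _).1]
      exact hw.perp n' j
    · refine ⟨fun h1 => (hw.orth j j').1 (Sum.inr_injective h1), fun h1 => (hw.orth j j').2
        fun h2 => h1 (by rw [h2])⟩
  have hskew : SkewD Ω e σI (sI S) := by
    refine ⟨hecs, heorth, fun v hv ε' hε' => hw.compl v hv ε' hε', ?_, ?_⟩
    · rintro (n | j)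
      · rfl
      · show Sum.inr (ss (ss j)) = Sum.inr j
        rw [rot.inv j]
    · rintro (n | j)
      · show (0 : ℝ) = -0
        simp
      · show S (oo (ss j)) * tt (ss j) = -(S (oo j) * tt j)
        rw [rot.grp j, rot.skew j]
        ring
  -- sizes
  have hLpos : ∀ n, 0 < L n := fun n => lt_of_lt_of_le one_pos (Bw.L_one hq n)
  have hLs : Summable (fun n => (L n)⁻¹) := Bw.L_inv_sum hq
  have hbd : ∀ k : ℕ, ∀ T' < T, ∃ b : Ix (ℕ × Bool) → ℝ, Summable b ∧ (∀ i, 0 ≤ b i) ∧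
      ∀ t ∈ Icc 0 T', ∀ i, |z i t| * nk k (e i) ≤ b i := by
    intro k T' hT'
    obtain ⟨X, m, hX⟩ := hDERB p Ψ H a κ h q q' G₀ (δ₀ / 2) η r α ε lm L hpk hP k
    obtain ⟨Y, hY⟩ := hz.reg (m + 1) T' hT'
    refine ⟨Sum.elim (fun n => |X| * |Y| * (L n)⁻¹) (fun j => bet w j * nk k (w j)), ?_, ?_, ?_⟩
    · have h3 : Summable ((Sum.elim (fun n => |X| * |Y| * (L n)⁻¹)
          (fun j => bet w j * nk k (w j))) ∘ Sum.inl) := hLs.mul_left _
      have h4 : Summable ((Sum.elim (fun n => |X| * |Y| * (L n)⁻¹)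
          (fun j => bet w j * nk k (w j))) ∘ Sum.inr) := bet_nk w k
      exact (HasSum.sum h3.hasSum h4.hasSum).summable
    · rintro (n | j)
      · have := hLpos n
        simp only [Sum.elim_inl]
        positivity
      · exact mul_nonneg (bet_pos w j).le (nk_nonneg _ _)
    · intro t ht
      rintro (n | j)
      · have h1 := hY t ht n
        have h2 := hX n
        have h3 := hLpos n
        simp only [Sum.elim_inl]
        have h4 : |z (Sum.inl n) t| * nk k (ψ n) ≤ |z (Sum.inl n) t| * (|X| * L n ^ m) := by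
          refine mul_le_mul_of_nonneg_left (h2.trans ?_) (abs_nonneg _)
          exact mul_le_mul_of_nonneg_right (le_abs_self X) (pow_pos h3 m).le
        refine h4.trans ?_
        rw [mul_assoc |X| |Y|]
        have h5 : |z (Sum.inl n) t| * L n ^ m ≤ |Y| * (L n)⁻¹ := by
          rw [← div_eq_mul_inv, le_div_iff₀ h3]
          calc |z (Sum.inl n) t| * L n ^ m * L n = L n ^ (m + 1) * |z (Sum.inl n) t| := by ring
            _ ≤ Y := h1
            _ ≤ |Y| := le_abs_self Y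
        calc |z (Sum.inl n) t| * (|X| * L n ^ m) = |X| * (|z (Sum.inl n) t| * L n ^ m) := by ring
          _ ≤ |X| * (|Y| * (L n)⁻¹) := mul_le_mul_of_nonneg_left h5 (abs_nonneg _)
      · exact mul_le_mul_of_nonneg_right (hoth j t ⟨ht.1, ht.2.trans_lt hT'⟩) (nk_nonneg _ _)
  have hsum : ∀ t ∈ Ico 0 T, ∀ k : ℕ, Summable (fun i => |z i t| * nk k (e i)) := by
    intro t ht k
    obtain ⟨b, hb1, -, hb3⟩ := hbd k t ht.2
    exact Summable.of_nonneg_of_le (fun i => mul_nonneg (abs_nonneg _) (nk_nonneg _ _))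
      (hb3 t ⟨ht.1, le_rfl⟩) hb1
  have hco : Countable (Ix (ℕ × Bool)) := inferInstance
  have hS' := fun t (ht : t ∈ Ico 0 T) => hSER Ω (Ix (ℕ × Bool)) e (fun i => z i t) hΩ hbdΩ hecs
    heorth (hsum t ht)
  set u : ℝ → E3 → E3 := fun t => ser e (fun i => z i t) with hu
  have hder : ∀ k : ℕ, ∀ T' < T, ∃ M, ∀ t ∈ Icc 0 T', ∀ x, ‖iteratedFDeriv ℝ k (u t) x‖ ≤ M := by
    intro k T' hT'
    obtain ⟨b, hb1, hb2, hb3⟩ := hbd k T' hT'
    refine ⟨∑' i, b i, fun t ht x => ?_⟩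
    have ht' : t ∈ Ico 0 T := ⟨ht.1, ht.2.trans_lt hT'⟩
    refine ((hS' t ht').2.2.1 k x).trans ?_
    exact (hsum t ht' k).tsum_le_tsum (hb3 t ht) hb1
  have hcoef : ∀ t ∈ Ico 0 T, ∀ i, ipr (u t) (e i) = z i t := fun t ht i =>
    (hS' t ht).2.2.2.2.2.1 i
  have hsol : SolD Ω ν e σI (sI S) T u := by
    refine ⟨fun t ht => (hS' t ht).1.continuous, fun t ht => (hS' t ht).2.1,
      fun t ht => ((hS' t ht).1.of_le two_le).contDiffOn,
      fun t ht x _ => (hS' t ht).2.2.2.1 x, fun t ht => (hS' t ht).2.2.2.2.1, ?_, ?_⟩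
    · intro T' hT'
      obtain ⟨M0, h0⟩ := hder 0 T' hT'
      obtain ⟨M1, h1⟩ := hder 1 T' hT'
      obtain ⟨M2, h2⟩ := hder 2 T' hT'
      refine ⟨max M0 (max M1 M2), fun t ht x _ => ⟨?_, ?_, ?_⟩⟩
      · have := h0 t ht x
        rw [norm_iteratedFDeriv_zero] at this
        exact this.trans (le_max_left _ _)
      · have := h1 t ht x
        rw [← norm_iteratedFDeriv_fderiv, norm_iteratedFDeriv_zero] at this
        exact this.trans ((le_max_left _ _).trans (le_max_right _ _))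
      · have := h2 t ht x
        rw [← norm_iteratedFDeriv_fderiv, ← norm_iteratedFDeriv_fderiv,
          norm_iteratedFDeriv_zero] at this
        exact this.trans ((le_max_right _ _).trans (le_max_right _ _))
    · intro i t ht
      have h1 := hz.deriv i t ht
      have h2 : HasDerivWithinAt (fun τ => ipr (u τ) (e i))
          (Kz S oo ss tt (fun a => z a t) i - lin (DD ν e) (fun a => z a t) i +
            qd (cc e) (fun a => z a t) i) (Ico 0 T) t :=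
        h1.congr (fun τ hτ => hcoef τ hτ i) (hcoef t ht i)
      refine h2.congr_deriv ?_
      have e1 : Kz S oo ss tt (fun a => z a t) i = sI S i * ipr (u t) (e (σI i)) := by
        rw [hcoef t ht]
        rcases i with n | j
        · show (0 : ℝ) = 0 * _
          rw [zero_mul]
        · rfl
      have e2 : lin (DD ν e) (fun a => z a t) i = ν * dirf (u t) (e i) := by
        have h3 := (hS' t ht).2.2.2.2.2.2.1 i
        have h3' : dirf (u t) (e i) = ∑' b, dirf (e i) (e b) * z b t := h3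
        rw [h3', ← tsum_mul_left]
        unfold lin DD
        exact tsum_congr fun b => by ring
      have e3 : qd (cc e) (fun a => z a t) i = -adv (u t) (u t) (e i) := by
        have h3 := (hS' t ht).2.2.2.2.2.2.2 i
        have h3' : adv (u t) (u t) (e i) =
          ∑' p : Ix (ℕ × Bool) × Ix (ℕ × Bool), adv (e p.1) (e p.2) (e i) * z p.1 t * z p.2 t := h3
        rw [h3', ← tsum_neg]
        unfold qd cc
        exact tsum_congr fun b => by ring
      rw [e1, e2, e3]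
      ring
  have hu0 : u 0 = e (Sum.inl 0) := by
    funext x
    show ∑' i, z i 0 • e i x = e (Sum.inl 0) x
    rw [tsum_eq_single (Sum.inl 0)]
    · rw [hz.init.1, one_smul]
    · rintro (n | j) hi
      · rcases n with _ | n
        · exact absurd rfl hi
        · rw [hz.init.2.1, zero_smul]
      · rw [hz.init.2.2, zero_smul]
  -- blow-up
  have hblow : ∀ M : ℝ, ∃ t ∈ Ico 0 T, ∃ x, M < ‖u t x‖ := by
    intro M
    by_contra hcon
    push Not at hcon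
    obtain ⟨n, hn⟩ := hP.small (2 * (M * √((volume (ball (0 : E3) 1)).toReal)))
    obtain ⟨t, ht, hbig⟩ := hz.big n
    have h1 := ipr_small (hP.r0 n) (m1 n) (m4 n) (hcon t ht)
    have h2 : ipr (u t) (ψ n) = z (Sum.inl n) t := hcoef t ht (Sum.inl n)
    rw [h2] at h1
    have h3 : ((8 : ℝ) / 1000) ^ n ≤ 1 := pow_le_one₀ (by norm_num) (by norm_num)
    linarith
  have hcf : ∀ T' < T, ∃ b : Ix (ℕ × Bool) → ℝ, Summable b ∧
      ∀ t ∈ Icc 0 T', ∀ i, |ipr (u t) (e i)| ≤ b i := by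
    intro T' hT'
    obtain ⟨Y, hY⟩ := hz.reg 1 T' hT'
    refine ⟨Sum.elim (fun n => Y * (L n)⁻¹) (bet w), ?_, ?_⟩
    · have h3 : Summable ((Sum.elim (fun n => Y * (L n)⁻¹) (bet w)) ∘ Sum.inl) :=
        hLs.mul_left _
      have h4 : Summable ((Sum.elim (fun n => Y * (L n)⁻¹) (bet w)) ∘ Sum.inr) := bet_summ w
      exact (HasSum.sum h3.hasSum h4.hasSum).summable
    · intro t ht i
      have ht' : t ∈ Ico 0 T := ⟨ht.1, ht.2.trans_lt hT'⟩
      rw [hcoef t ht']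
      rcases i with n | j
      · simp only [Sum.elim_inl]
        rw [← div_eq_mul_inv, le_div_iff₀ (hLpos n), mul_comm]
        have := hY t ht n
        rwa [pow_one] at this
      · exact hoth j t ht'
  have hcfk : ∀ k : ℕ, ∀ T' < T, ∃ b : Ix (ℕ × Bool) → ℝ, Summable b ∧
      ∀ t ∈ Icc 0 T', ∀ i, |ipr (u t) (e i)| * nk k (e i) ≤ b i := by
    intro k T' hT'
    obtain ⟨b, hb1, -, hb3⟩ := hbd k T' hT'
    refine ⟨b, hb1, fun t ht i => ?_⟩
    rw [hcoef t ⟨ht.1, ht.2.trans_lt hT'⟩]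
    exact hb3 t ht i
  have hrep : ∀ t ∈ Ico 0 T, u t = ser e (fun i => ipr (u t) (e i)) := by
    intro t ht
    have h1 : (fun i => ipr (u t) (e i)) = fun i => z i t := funext fun i => hcoef t ht i
    rw [h1]
  have hcore : Core Ω ν η e σI (sI S) (Sum.inl 0) T u := by
    refine ⟨hco, hskew, hT, hsol, hu0,
      fun t ht => (hS' t ht).1, hder, ?_, hcfk, hcf, hrep, ?_, ?_, hblow⟩
    · exact hENER Ω ν _ e σI (sI S) T u hΩ hbdΩ hskew hsol
        (fun t ht => (hS' t ht).1.of_le two_le) hcf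
    · intro t ht
      rw [((hWC Ω _ e σI (sI S) hΩ hbdΩ hskew hco).1 (u t) (hS' t ht).2.2.2.2.1).2]
      refine (hz.enl t ht).trans (le_of_eq ?_)
      exact tsum_congr fun i => by rw [hcoef t ht i]
    · have hη' : ∀ n : ℕ, (dl η n) ^ 2 = η ^ 2 * (1 / 16) ^ n := by
        intro n
        unfold dl
        rw [div_pow, ← pow_mul, mul_comm n 2, pow_mul, div_eq_mul_inv, one_div, inv_pow]
        norm_num
      have hg1 : Summable (fun n : ℕ => (dl η n) ^ 2) := by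
        have h1 : Summable (fun n : ℕ => ((1 : ℝ) / 16) ^ n) :=
          summable_geometric_of_lt_one (by norm_num) (by norm_num)
        exact (h1.mul_left (η ^ 2)).congr fun n => (hη' n).symm
      have hg2 : ∑' n : ℕ, (dl η n) ^ 2 ≤ η / 2 := by
        have h1 : ∑' n : ℕ, (dl η n) ^ 2 = η ^ 2 * (16 / 15) := by
          rw [tsum_congr hη', tsum_mul_left, tsum_geometric_of_lt_one (by norm_num) (by norm_num)]
          norm_num
        rw [h1]
        nlinarith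
      refine ⟨Sum.elim (fun n => dl η n) (fun j => cβ * bet w j), ?_, ?_, ?_⟩
      · rintro (n | j)
        · obtain ⟨s, hs, h1⟩ := hz.left n
          refine ⟨s, hs, fun t ht => ?_⟩
          rw [hcoef t ⟨hs.1.trans ht.1, ht.2⟩]
          exact h1 t ht
        · refine ⟨0, ⟨le_rfl, hT⟩, fun t ht => ?_⟩
          rw [hcoef t ht]
          exact hoth' j t ht
      · have h3 : Summable ((fun i => (Sum.elim (fun n => dl η n) (fun j => cβ * bet w j) i) ^ 2)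
            ∘ Sum.inl) := hg1
        have h4 : Summable ((fun i => (Sum.elim (fun n => dl η n) (fun j => cβ * bet w j) i) ^ 2)
            ∘ Sum.inr) := hsβ
        exact (HasSum.sum h3.hasSum h4.hasSum).summable
      · have h3 : HasSum ((fun i => (Sum.elim (fun n => dl η n) (fun j => cβ * bet w j) i) ^ 2)
            ∘ Sum.inl) (∑' n : ℕ, (dl η n) ^ 2) := hg1.hasSum
        have h4 : HasSum ((fun i => (Sum.elim (fun n => dl η n) (fun j => cβ * bet w j) i) ^ 2)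
            ∘ Sum.inr) (∑' j, (cβ * bet w j) ^ 2) := hsβ.hasSum
        rw [(HasSum.sum h3 h4).tsum_eq]
        linarith

  -- the limits at the time `T`
  have hlip := hLIPT (ℕ × Bool) g oo ss tt L _ ℓ ρ _ R E _ _ S T z K rot hT hz.deriv hz.en
    (fun t ht => by
      obtain ⟨b, hb1, hb2⟩ := hcf t ht.2
      refine Summable.of_nonneg_of_le (fun a => abs_nonneg _) (fun a => ?_) hb1
      have := hb2 t ⟨ht.1, le_rfl⟩ a
      rwa [hcoef t ht] at this)
  have hlim : ∀ i, ∃ l, Tendsto (z i) (𝓝[Ico 0 T] T) (𝓝 l) := fun i => by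
    obtain ⟨P, hP, h1⟩ := hlip i
    exact lip_lim hP h1
  choose y hy using hlim
  have hne : (𝓝[Ico 0 T] T).NeBot := by
    rw [← mem_closure_iff_nhdsWithin_neBot, closure_Ico hT.ne]
    exact right_mem_Icc.2 hT.le
  have hyl : ∀ i X, (∃ s ∈ Ico 0 T, ∀ t ∈ Ico s T, |z i t| ≤ X) → |y i| ≤ X := by
    rintro i X ⟨s, hs, h1⟩
    refine le_of_tendsto (hy i).abs ?_
    have h2 : Ici s ∈ 𝓝 T := Ici_mem_nhds hs.2
    filter_upwards [self_mem_nhdsWithin, mem_nhdsWithin_of_mem_nhds h2] with t ht1 ht2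
    exact h1 t ⟨ht2, ht1.2⟩
  have hy1 : ∀ n, |y (Sum.inl n)| ≤ dl η n := fun n => hyl _ _ (hz.left n)
  have hy2 : ∀ j, |y (Sum.inr j)| ≤ β₁ j := fun j =>
    hyl _ _ ⟨0, ⟨le_rfl, hT⟩, fun t ht => hz.oth j t ht⟩
  obtain ⟨y', hy'1, hy'2, hy'3⟩ := hcore.fin
  have hyy : ∀ i, y i ^ 2 ≤ y' i ^ 2 := by
    intro i
    obtain ⟨s, hs, h1⟩ := hy'1 i
    have h2 : |y i| ≤ y' i := hyl i _ ⟨s, hs, fun t ht => by
      have := h1 t ht
      rwa [hcoef t ⟨hs.1.trans ht.1, ht.2⟩] at this⟩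
    rw [← sq_abs]
    exact pow_le_pow_left₀ (abs_nonneg _) h2 2
  have hys : Summable (fun i => y i ^ 2) :=
    Summable.of_nonneg_of_le (fun i => sq_nonneg _) hyy hy'2
  have hys2 : ∑' i, y i ^ 2 ≤ η := (hys.tsum_le_tsum hyy hy'2).trans hy'3
  have nm := hNUM η lm L _ ℓ _ hq
  have wn := hWN η lm L _ ℓ _ hq nm
  -- the rate
  obtain ⟨X₀, hX₀, hX₁⟩ := hSUP p Ψ H a κ h q q' G₀ (δ₀ / 2) η r α ε lm L hpk hP
  obtain ⟨Z, hZ0, hZ⟩ := sum_rate hSUMB hq nm (w := w) hX₀ hX₁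
  obtain ⟨hthr1, hthr2⟩ := hTHR η lm L _ ℓ _ hq nm hslow
  have hLtop : Tendsto L atTop atTop :=
    tendsto_atTop_mono (fun n => Bw.L_geo hq n)
      (tendsto_pow_atTop_atTop_of_one_lt (by norm_num : (1 : ℝ) < 2))
  have hexp : ∀ m, Real.exp (-(lm (m - 1) / 200)) ≤ Real.exp (-(lm (m - 1) / 300)) := fun m => by
    apply Real.exp_le_exp.2
    linarith [nm.lm1 (m - 1)]
  refine ⟨e, S, T, u, Θ, fun n => 2 * wd lm L n, y, hcore, hΘ, ?_, ?_, hys, hys2, ?_, ?_⟩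
  · have := wn.wlim.const_mul 2
    rwa [mul_zero] at this
  · intro i
    have h1 : 𝓝[<] T = 𝓝[Ico 0 T] T := (nhdsWithin_Ico_eq_nhdsLT hT).symm
    rw [h1]
    refine (hy i).congr' (eventually_nhdsWithin_of_forall fun t ht => ?_)
    exact (hcoef t ht i).symm
  · -- the rate before the time `T`
    intro ε' hε'
    obtain ⟨M, hM⟩ := hRT L (fun n => 1 / (dl η (n + 1) * L n)) T Z
      (fun τ => ∑' i, |z i (T - τ)| * nk 0 (e i)) hT hZ0 (Bw.L_one hq) (Bw.L_mono hq) hLtop hslow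
      (fun n => one_div_pos.2 (mul_pos (nm.d0 _) (hLpos n))) hthr1
      (fun k τ hτ hk => by
        have ht : T - τ ∈ Ico 0 T := ⟨by linarith [hτ.2], by linarith [hτ.1]⟩
        exact hZ k (fun i => z i (T - τ))
          (fun i => Pool.Agent.Y6.N.Bl.abs_le_one (hz.en _ ht).1 (hz.en _ ht).2 i)
          (fun m hm => (hfar k (T - τ) ht (by rw [sub_sub_cancel]; exact hk) m hm).trans
            (hexp m))
          (fun j => hoth j _ ht)) ε' hε'
    refine ⟨M, fun t ht x => ?_⟩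
    have h1 := (hS' t ht).2.2.1 0 x
    rw [norm_iteratedFDeriv_zero] at h1
    have h2 := hM (T - t) ⟨by linarith [ht.2], by linarith [ht.1]⟩
    simp only [sub_sub_cancel] at h2
    exact h1.trans h2
  · intro q₁ hq1 hq2
    obtain ⟨z', b1, b2, b3, b4, b5, b6, b7, b8⟩ := hback S hS1 hSb y q₁
      (fun j => (hy2 j).trans (min_le_right _ _)) hy1 hys hq1 hq2
    have hbdk : ∀ k : ℕ, ∀ θ ∈ Ioc 0 Θ, ∃ b : Ix (ℕ × Bool) → ℝ, Summable b ∧
        ∀ t ∈ Icc θ Θ, ∀ i, |z' i t| * nk k (e i) ≤ b i := by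
      intro k θ hθ
      refine bdk_of hLpos hLs k (hDERB p Ψ H a κ h q q' G₀ (δ₀ / 2) η r α ε lm L hpk hP k)
        (fun k => b5 k θ hθ) fun j t ht => b4 j t ⟨hθ.1.le.trans ht.1, ht.2⟩
    refine ⟨z', ⟨?_, b3, hbdk, ?_, b6, b7⟩, ?_⟩
    · intro i
      obtain ⟨P, hP, h1⟩ := b2 i
      refine ⟨P, fun t ht => ?_⟩
      have h2 := h1 0 ⟨le_rfl, hΘ.le⟩ t ht
      rw [b1, sub_zero, abs_of_nonneg ht.1] at h2
      exact h2
    · intro θ hθ
      exact bd_of hLpos hLs (fun k => b5 k θ hθ) fun j t ht =>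
        b4 j t ⟨hθ.1.le.trans ht.1, ht.2⟩
    · -- the rate after the time `T`
      intro ε' hε'
      obtain ⟨M, hM⟩ := hRT L (fun n => 2 * wd lm L n) Θ Z
        (fun τ => ∑' i, |z' i τ| * nk 0 (e i)) hΘ hZ0 (Bw.L_one hq) (Bw.L_mono hq) hLtop hslow
        (fun n => mul_pos two_pos (wn.w0 n)) hthr2
        (fun k τ hτ hk => by
          have hτ' : τ ∈ Icc 0 Θ := ⟨hτ.1.le, hτ.2⟩
          exact hZ k (fun i => z' i τ)
            (fun i => Pool.Agent.Y6.N.Bl.abs_le_one (b3 _ hτ').1 ((b3 _ hτ').2.trans hq2) i)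
            (fun m hm => b8 k τ hτ hk m hm) (fun j => b4 j _ hτ')) ε' hε'
      refine ⟨M, fun t ht x => ?_⟩
      have hs : ∀ k : ℕ, Summable (fun i => |z' i t| * nk k (e i)) := by
        intro k
        obtain ⟨b, hb1, hb2⟩ := hbdk k t ht
        exact Summable.of_nonneg_of_le (fun i => mul_nonneg (abs_nonneg _) (nk_nonneg _ _))
          (hb2 t ⟨le_rfl, ht.2⟩) hb1
      have h1 := (hSER Ω (Ix (ℕ × Bool)) e (fun i => z' i t) hΩ hbdΩ hecs heorth hs).2.2.1 0 x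
      rw [norm_iteratedFDeriv_zero] at h1
      exact h1.trans (hM t ht)

end Pool.Agent.Y7.LN
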