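import Pool.Agent.Y7.LN.All

/-!
Project LN: the form in which the main theorem is stated (fields on `EuclideanSpace ℝ (Fin 3)`).
The definitions `dvg`, `CS`, `ipr`, `dirf`, `adv`, `InH`, `SkewD`, `SolD`, `SmD` are in
`Pool.Agent.Y303.SK.Res`, the definitions `gr`, `gf`, `av`, `gg`, `H1`, `LH` are in
`Pool.Agent.Y303.EJ.Res`.
-/

open Set MeasureTheory

set_option autoImplicit false

namespace Pool.Agent.Y7.LNR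

open Pool.Agent.Y303.SKR Pool.Agent.Y303.EJR

/-- Classical solutions on `(T, Θ]` of `∂ₜ u + (u · ∇) u + ∇p = ν Δ u + K u`, `div u = 0` in `Ω`,
`u = 0` on `∂Ω` (extended by zero), where `K = ∑ s i ⟨·, e (σ i)⟩ e i`. They are smooth on `ℝ³`
and all derivatives in space are bounded, locally uniformly in time; the equation is tested with
the complete system `e`. -/
structure SolA {ι : Type} (Ω : Set (EuclideanSpace ℝ (Fin 3))) (ν : ℝ)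
    (e : ι → EuclideanSpace ℝ (Fin 3) → EuclideanSpace ℝ (Fin 3)) (σ : ι → ι) (s : ι → ℝ)
    (T Θ : ℝ) (u : ℝ → EuclideanSpace ℝ (Fin 3) → EuclideanSpace ℝ (Fin 3)) : Prop where
  smooth : ∀ t ∈ Ioc T Θ, ContDiff ℝ (⊤ : ℕ∞) (u t)
  bound : ∀ k : ℕ, ∀ T₁ ∈ Ioc T Θ, ∃ M, ∀ t ∈ Icc T₁ Θ, ∀ x, ‖iteratedFDeriv ℝ k (u t) x‖ ≤ M
  zero : ∀ t ∈ Ioc T Θ, ∀ x ∉ Ω, u t x = 0
  dv : ∀ t ∈ Ioc T Θ, ∀ x, dvg (u t) x = 0
  eqn : ∀ i, ∀ t ∈ Ioc T Θ, HasDerivWithinAt (fun τ => ipr (u τ) (e i))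
    (s i * ipr (u t) (e (σ i)) - ν * dirf (u t) (e i) - adv (u t) (u t) (e i)) (Ioc T Θ) t

open Pool.Agent.Y303

theorem t_RES_of (hF : LN.S_FINL) (ν : ℝ) (Ω : Set (EuclideanSpace ℝ (Fin 3)))
    (hν : 0 < ν) (hΩ : IsOpen Ω) (hb : Bornology.IsBounded Ω) (hne : Ω.Nonempty) :
    ∃ (ι : Type) (e : ι → EuclideanSpace ℝ (Fin 3) → EuclideanSpace ℝ (Fin 3)) (σ : ι → ι)
      (s : ι → ℝ) (i₀ : ι) (T Θ : ℝ)
      (U : ℝ → ℝ → EuclideanSpace ℝ (Fin 3) → EuclideanSpace ℝ (Fin 3)),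
      SkewD Ω e σ s ∧ 0 < T ∧ T < Θ ∧ ∀ δ ∈ Icc (0 : ℝ) (7 / 10),
        LH Ω ν e σ s Θ (U δ) (fun t => gr (U δ t)) ∧ U δ 0 = e i₀ ∧
        (∀ t ≤ T, U δ t = U 0 t) ∧
        SolD Ω ν e σ s T (U δ) ∧ SmD T (U δ) ∧ SolA Ω ν e σ s T Θ (U δ) ∧
        (∀ t ∈ Ico 0 T, ipr (U δ t) (U δ t) +
          2 * ν * (∫ τ in (0 : ℝ)..t, gg (gr (U δ τ))) = ipr (U δ 0) (U δ 0)) ∧
        (∀ t ∈ Ioc T Θ, ipr (U δ t) (U δ t) +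
          2 * ν * (∫ τ in (0 : ℝ)..t, gg (gr (U δ τ))) = (1 - δ) * ipr (U δ 0) (U δ 0)) ∧
        (∀ r ∈ Icc 0 Θ, r ≠ T → ∀ t ∈ Icc r Θ,
          ipr (U δ t) (U δ t) + 2 * ν * (∫ τ in r..t, gg (gr (U δ τ))) ≤
            ipr (U δ r) (U δ r)) ∧
        ∀ (T' : ℝ) (v : ℝ → EuclideanSpace ℝ (Fin 3) → EuclideanSpace ℝ (Fin 3))
          (G : ℝ → EuclideanSpace ℝ (Fin 3) → Fin 3 → EuclideanSpace ℝ (Fin 3)), 0 < T' →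
          T' ≤ T → LH Ω ν e σ s T' v G → v 0 =ᵐ[volume] U δ 0 →
          ∀ t ∈ Icc 0 T', v t =ᵐ[volume] U δ t := by
  obtain ⟨ι, e, σ, s, i₀, T, Θ, u, U, h1, h2, h3, h4, h5, h6, h7, h8, h9, h10, h11, h12⟩ :=
    hF ν Ω 1 hν hΩ hb hne one_pos
  have h0 : (0 : ℝ) ∈ Icc (0 : ℝ) (7 / 10) := ⟨le_rfl, by norm_num⟩
  refine ⟨ι, e, σ, s, i₀, T, Θ, U, skewD_iff.2 h1, h2, h3, fun δ hδ => ?_⟩
  obtain ⟨a1, a2, a3, a4, a5, a6, a7, a8, a9⟩ := h12 δ hδ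
  have e0 : U δ 0 = u 0 := a1 0 h2.le
  have e1 : ∀ t ∈ Ico 0 T, U δ t = u t := fun t ht => a1 t ht.2.le
  refine ⟨lh_iff.2 a2, by rw [e0, h4], fun t ht => by rw [a1 t ht, (h12 0 h0).1 t ht],
    solD_iff.2 (EJ.solD_congr h5 e1), ⟨fun t ht => by rw [e1 t ht]; exact h6 t ht, ?_⟩,
    ⟨a3, a6, a4, a5, a7⟩, ?_, ?_, a9, ?_⟩
  · intro k T' hT'
    obtain ⟨M, hM⟩ := h7 k T' hT'
    refine ⟨M, fun t ht => ?_⟩
    rw [e1 t ⟨ht.1, ht.2.trans_lt hT'⟩]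
    exact hM t ht
  · intro t ht
    have h := h8 t ht
    have h' : (∫ τ in (0 : ℝ)..t, gg (gr (U δ τ))) = ∫ τ in (0 : ℝ)..t, gg (gr (u τ)) := by
      refine intervalIntegral.integral_congr fun τ hτ => ?_
      rw [uIcc_of_le ht.1] at hτ
      change gg (gr (U δ τ)) = gg (gr (u τ))
      rw [a1 τ (hτ.2.trans ht.2.le)]
    rw [h', e0, e1 t ht]
    exact h
  · intro t ht
    rw [e0]
    exact a8 t ht
  · intro T' v G hT' hTT hv hv0 t ht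
    rw [a1 t (ht.2.trans hTT)]
    rw [e0] at hv0
    exact h11 T' v G hT' hTT (lh_iff.1 hv) hv0 t ht

end Pool.Agent.Y7.LNR
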