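import Pool.Agent.Y303.SK.Defs

/-!
Project LN, second part: from the rate to the Lebesgue spaces. Statement.
-/

open Set Filter Topology MeasureTheory Metric

set_option autoImplicit false

namespace Pool.Agent.Y7.LN

open Pool.Agent.Y5 (E3)
open Pool.Agent.Y303.SK

/-- The class `L^p(0, Θ; L^q)`. -/
def S_LPQ : Prop := ∀ (T Θ : ℝ) (u : ℝ → E3 → E3), 0 < T → T < Θ →
  (∀ t ∈ Icc 0 Θ, t ≠ T → MemLp (u t) 2 volume ∧ ipr (u t) (u t) ≤ 1) →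
  (∀ ε > (0 : ℝ), ∃ M, ∀ t ∈ Icc 0 Θ, t ≠ T → ∀ x,
    ‖u t x‖ ≤ M * |t - T| ^ (-(3 / 5 + ε))) →
  ∀ p q : ℝ, 1 ≤ p → 2 ≤ q → 3 / 2 < 5 / (2 * p) + 3 / q →
  ∫⁻ t in Ioo 0 Θ, (∫⁻ x, ‖u t x‖ₑ ^ q) ^ (p / q) < ⊤

end Pool.Agent.Y7.LN
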