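import Pool.Agent.Y7.LN.Res
import Pool.Agent.Y7.LN.Fin2
import Pool.Agent.Y7.LN.Stm3

/-!
Project LN: the form in which the main theorem (with the rate of the singularity) is stated.
The definitions `dvg`, `CS`, `ipr`, `dirf`, `adv`, `InH`, `SkewD`, `SolD`, `SmD` are in
`Pool.Agent.Y303.SK.Res`, the definitions `gr`, `gf`, `av`, `gg`, `H1`, `LH` are in
`Pool.Agent.Y303.EJ.Res`, the definition `SolA` is in `Pool.Agent.Y7.LN.Res`.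
-/

open Set MeasureTheory

set_option autoImplicit false

namespace Pool.Agent.Y7.LNR

open Pool.Agent.Y303.SKR Pool.Agent.Y303.EJR
open Pool.Agent.Y303

theorem t_RES2_of (hF : LN.S_FINL2) (hLPQ : LN.S_LPQ) (ν : ℝ)
    (Ω : Set (EuclideanSpace ℝ (Fin 3)))
    (hν : 0 < ν) (hΩ : IsOpen Ω) (hb : Bornology.IsBounded Ω) (hne : Ω.Nonempty) :
    ∃ (ι : Type) (e : ι → EuclideanSpace ℝ (Fin 3) → EuclideanSpace ℝ (Fin 3)) (σ : ι → ι)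
      (s : ι → ℝ) (i₀ : ι) (T Θ : ℝ)
      (U : ℝ → ℝ → EuclideanSpace ℝ (Fin 3) → EuclideanSpace ℝ (Fin 3)),
      SkewD Ω e σ s ∧ 0 < T ∧ T < Θ ∧ ∀ δ ∈ Icc (0 : ℝ) (7 / 10),
        LH Ω ν e σ s Θ (U δ) (fun t => gr (U δ t)) ∧ U δ 0 = e i₀ ∧
        (∀ t ≤ T, U δ t = U 0 t) ∧
        SolD Ω ν e σ s T (U δ) ∧ SmD T (U δ) ∧ SolA Ω ν e σ s T Θ (U δ) ∧
        (∀ t ∈ Ico 0 T, ipr (U δ t) (U δ t) +
          2 * ν * (∫ τ in (0 : ℝ)..t, gg (gr (U δ τ))) = ipr (U δ 0) (U δ 0)) ∧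
        (∀ t ∈ Ioc T Θ, ipr (U δ t) (U δ t) +
          2 * ν * (∫ τ in (0 : ℝ)..t, gg (gr (U δ τ))) = (1 - δ) * ipr (U δ 0) (U δ 0)) ∧
        (∀ r ∈ Icc 0 Θ, r ≠ T → ∀ t ∈ Icc r Θ,
          ipr (U δ t) (U δ t) + 2 * ν * (∫ τ in r..t, gg (gr (U δ τ))) ≤
            ipr (U δ r) (U δ r)) ∧
        (∀ ε > (0 : ℝ), ∃ M, ∀ t ∈ Icc 0 Θ, t ≠ T → ∀ x,
          ‖U δ t x‖ ≤ M * |t - T| ^ (-(3 / 5 + ε))) ∧
        (∀ p q : ℝ, 1 ≤ p → 2 ≤ q → 3 / 2 < 5 / (2 * p) + 3 / q →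
          ∫⁻ t in Ioo 0 Θ, (∫⁻ x, ‖U δ t x‖ₑ ^ q) ^ (p / q) < ⊤) ∧
        ∀ (T' : ℝ) (v : ℝ → EuclideanSpace ℝ (Fin 3) → EuclideanSpace ℝ (Fin 3))
          (G : ℝ → EuclideanSpace ℝ (Fin 3) → Fin 3 → EuclideanSpace ℝ (Fin 3)), 0 < T' →
          T' ≤ T → LH Ω ν e σ s T' v G → v 0 =ᵐ[volume] U δ 0 →
          ∀ t ∈ Icc 0 T', v t =ᵐ[volume] U δ t := by
  obtain ⟨ι, e, σ, s, i₀, T, Θ, u, U, h1, h2, h3, h4, h5, h6, h7, h8, h9, h10, h11, h12⟩ :=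
    hF ν Ω 1 hν hΩ hb hne one_pos
  have h0 : (0 : ℝ) ∈ Icc (0 : ℝ) (7 / 10) := ⟨le_rfl, by norm_num⟩
  refine ⟨ι, e, σ, s, i₀, T, Θ, U, skewD_iff.2 h1, h2, h3, fun δ hδ => ?_⟩
  obtain ⟨a1, a2, a3, a4, a5, a6, a7, a8, a9, a10⟩ := h12 δ hδ
  have e0 : U δ 0 = u 0 := a1 0 h2.le
  have e1 : ∀ t ∈ Ico 0 T, U δ t = u t := fun t ht => a1 t ht.2.le
  have hone : SK.ipr (U δ 0) (U δ 0) = 1 := by
    rw [e0, h4]
    exact (h1.orth i₀ i₀).1 rfl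
  refine ⟨lh_iff.2 a2, by rw [e0, h4], fun t ht => by rw [a1 t ht, (h12 0 h0).1 t ht],
    solD_iff.2 (EJ.solD_congr h5 e1), ⟨fun t ht => by rw [e1 t ht]; exact h6 t ht, ?_⟩,
    ⟨a3, a6, a4, a5, a7⟩, ?_, ?_, a9, a10, ?_, ?_⟩
  · intro k T' hT'
    obtain ⟨M, hM⟩ := h7 k T' hT'
    refine ⟨M, fun t ht => ?_⟩
    rw [e1 t ⟨ht.1, ht.2.trans_lt hT'⟩]
    exact hM t ht
  · intro t ht
    have h := h8 t ht
    have h' : (∫ τ in (0 : ℝ)..t, gg (gr (U δ τ))) = ∫ τ in (0 : ℝ)..t, gg (gr (u τ)) := by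
      refine intervalIntegral.integral_congr fun τ hτ => ?_
      rw [uIcc_of_le ht.1] at hτ
      change gg (gr (U δ τ)) = gg (gr (u τ))
      rw [a1 τ (hτ.2.trans ht.2.le)]
    rw [h', e0, e1 t ht]
    exact h
  · intro t ht
    rw [e0]
    exact a8 t ht
  · refine hLPQ T Θ (U δ) h2 h3 (fun t ht _ => ⟨(a2.inH t ht).1, ?_⟩) a10
    have g1 := a2.energy t ht
    rw [hone] at g1
    have g2 : 0 ≤ ∫ τ in (0 : ℝ)..t, EJ.gg (EJ.gr (U δ τ)) :=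
      intervalIntegral.integral_nonneg ht.1 fun r _ => by
        rw [EJ.gg_gr]; exact SK.dirf_nonneg _
    have g3 : 0 ≤ 2 * ν * ∫ τ in (0 : ℝ)..t, EJ.gg (EJ.gr (U δ τ)) := by positivity
    linarith
  · intro T' v G hT' hTT hv hv0 t ht
    rw [a1 t (ht.2.trans hTT)]
    rw [e0] at hv0
    exact h11 T' v G hT' hTT (lh_iff.1 hv) hv0 t ht

end Pool.Agent.Y7.LNR
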