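import Pool.Agent.Y7.LN.Res
import Pool.Agent.Y7.LN.Fin3

/-!
Project LN: the form in which the theorem on the loss of regularity and of uniqueness is stated.
The definitions `dvg`, `CS`, `ipr`, `dirf`, `adv`, `InH`, `SkewD`, `SolD`, `SmD` are in
`Pool.Agent.Y303.SK.Res`, the definitions `gr`, `gf`, `av`, `gg`, `H1`, `LH` are in
`Pool.Agent.Y303.EJ.Res`, the definition `SolA` is in `Pool.Agent.Y7.LN.Res`.
-/

open Set MeasureTheory

set_option autoImplicit false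

namespace Pool.Agent.Y7.LNR

open Pool.Agent.Y303.SKR Pool.Agent.Y303.EJR

/-- The time derivative `∂ₜ v = g` belongs to `L^∞(0, T; H)`. -/
def DtBdd (Ω : Set (EuclideanSpace ℝ (Fin 3))) (T : ℝ)
    (v g : ℝ → EuclideanSpace ℝ (Fin 3) → EuclideanSpace ℝ (Fin 3)) : Prop :=
  (∃ M, ∀ t ∈ Icc 0 T, InH Ω (g t) ∧ ipr (g t) (g t) ≤ M) ∧
    ∀ w, InH Ω w → IntervalIntegrable (fun τ => ipr (g τ) w) volume 0 T ∧
      ∀ t ∈ Icc 0 T, ipr (v t) w = ipr (v 0) w + ∫ τ in (0 : ℝ)..t, ipr (g τ) w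

open Pool.Agent.Y303
open Pool.Agent.Y5 (E3)

lemma abs_ipr {v w : E3 → E3} (hv : MemLp v 2 volume) (hw : MemLp w 2 volume) :
    |ipr v w| ≤ (ipr v v + ipr w w) / 2 := by
  have h1 : ipr (fun x => w x - v x) (fun x => w x - v x) = ipr w w - 2 * ipr v w + ipr v v :=
    Pool.Agent.Y284.EJ.ipr_sub_self hw hv
  have h2 : 0 ≤ ipr (fun x => w x - v x) (fun x => w x - v x) :=
    Pool.Agent.Y284.EJ.ipr_self_nonneg _
  have h3 : ipr (fun x => w x - v x) (fun x => w x - v x) ≤ 2 * ipr w w + 2 * ipr v v :=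
    Pool.Agent.Y284.EJ.ipr_sub_le hw hv
  rw [abs_le]
  constructor <;> linarith

/-- A field with a bounded time derivative does not lose energy at one time. -/
lemma no_reg {Ω : Set E3} {T T' E : ℝ} {v g : ℝ → E3 → E3} (hT : 0 < T) (hTT : T ≤ T')
    (hv : ∀ t ∈ Icc 0 T', InH Ω (v t)) (hg : DtBdd Ω T' v g)
    (hE : ∀ t ∈ Ico 0 T, ipr (v t) (v t) ≤ E) (h1 : ∀ t ∈ Ico 0 T, 3 / 4 ≤ ipr (v t) (v t))
    (h2 : ipr (v T) (v T) ≤ 1 / 4) : False := by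
  obtain ⟨⟨M, hM⟩, hg2⟩ := hg
  have hTI : T ∈ Icc 0 T' := ⟨hT.le, hTT⟩
  have hM0 : 0 ≤ M := (Pool.Agent.Y284.EJ.ipr_self_nonneg (g T)).trans (hM T hTI).2
  have hE0 : 0 ≤ E := by
    have h3 := h1 0 ⟨le_rfl, hT⟩
    have h4 := hE 0 ⟨le_rfl, hT⟩
    linarith
  obtain ⟨D, hD⟩ : ∃ D, D = (M + (E + 1 / 4)) / 2 := ⟨_, rfl⟩
  have hD0 : 0 ≤ D := by rw [hD]; positivity
  -- the difference of the coefficients
  have hdiff : ∀ w, InH Ω w → ipr w w ≤ E + 1 / 4 → ∀ t ∈ Ico 0 T,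
      |ipr (v T) w - ipr (v t) w| ≤ D * (T - t) := by
    intro w hw hwE t ht
    obtain ⟨hi, hf⟩ := hg2 w hw
    have htI : t ∈ Icc 0 T' := ⟨ht.1, ht.2.le.trans hTT⟩
    have h01 : IntervalIntegrable (fun τ => ipr (g τ) w) volume 0 t :=
      hi.mono_set (by
        rw [uIcc_of_le ht.1, uIcc_of_le (hT.le.trans hTT)]
        exact Icc_subset_Icc le_rfl htI.2)
    have h12 : IntervalIntegrable (fun τ => ipr (g τ) w) volume t T :=
      hi.mono_set (by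
        rw [uIcc_of_le ht.2.le, uIcc_of_le (hT.le.trans hTT)]
        exact Icc_subset_Icc ht.1 hTT)
    have h3 := intervalIntegral.integral_add_adjacent_intervals h01 h12
    rw [hf T hTI, hf t htI, ← h3]
    have h4 : ipr (v 0) w + ((∫ τ in (0 : ℝ)..t, ipr (g τ) w) + ∫ τ in t..T, ipr (g τ) w) -
        (ipr (v 0) w + ∫ τ in (0 : ℝ)..t, ipr (g τ) w) = ∫ τ in t..T, ipr (g τ) w := by ring
    rw [h4, ← Real.norm_eq_abs]
    have h5 := intervalIntegral.norm_integral_le_of_norm_le_const (a := t) (b := T) (C := D)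
      (f := fun τ => ipr (g τ) w) (fun τ hτ => by
        rw [uIoc_of_le ht.2.le] at hτ
        have hτI : τ ∈ Icc 0 T' := ⟨ht.1.trans hτ.1.le, hτ.2.trans hTT⟩
        rw [Real.norm_eq_abs]
        refine (abs_ipr (hM τ hτI).1.1 hw.1).trans ?_
        have := (hM τ hτI).2
        rw [hD]
        linarith)
    rwa [abs_of_nonneg (by linarith [ht.2] : 0 ≤ T - t)] at h5
  -- a time close to `T`
  obtain ⟨t, ht0, htT, htD⟩ : ∃ t, 0 ≤ t ∧ t < T ∧ 2 * (D * (T - t)) < 1 / 2 := by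
    refine ⟨max 0 (T - 1 / (8 * (D + 1))), le_max_left _ _, max_lt hT ?_, ?_⟩
    · have : 0 < 1 / (8 * (D + 1)) := by positivity
      linarith
    · have h3 : T - max 0 (T - 1 / (8 * (D + 1))) ≤ 1 / (8 * (D + 1)) := by
        have := le_max_right 0 (T - 1 / (8 * (D + 1)))
        linarith
      have h4 : D * (T - max 0 (T - 1 / (8 * (D + 1)))) ≤ D * (1 / (8 * (D + 1))) :=
        mul_le_mul_of_nonneg_left h3 hD0
      have h5 : D * (1 / (8 * (D + 1))) ≤ 1 / 8 := by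
        rw [mul_one_div, div_le_div_iff₀ (by positivity) (by norm_num)]
        linarith
      linarith
  have ht : t ∈ Ico 0 T := ⟨ht0, htT⟩
  have htI : t ∈ Icc 0 T' := ⟨ht.1, ht.2.le.trans hTT⟩
  have e1 := hdiff (v t) (hv t htI) ((hE t ht).trans (by linarith)) t ht
  have e2 := hdiff (v T) (hv T hTI) (h2.trans (by linarith)) t ht
  have e3 : ipr (v t) (v T) = ipr (v T) (v t) := Pool.Agent.Y500.SK.ipr_comm _ _
  have e4 := h1 t ht
  rw [abs_le] at e1 e2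
  rw [e3] at e2
  linarith [e1.1, e1.2, e2.1, e2.2]

theorem t_RES3_of (hF : LN.S_FINL3) (hU : SK.S_UNIQ) (ν : ℝ)
    (Ω : Set (EuclideanSpace ℝ (Fin 3)))
    (hν : 0 < ν) (hΩ : IsOpen Ω) (hb : Bornology.IsBounded Ω) (hne : Ω.Nonempty) :
    ∃ (ι : Type) (e : ι → EuclideanSpace ℝ (Fin 3) → EuclideanSpace ℝ (Fin 3)) (σ : ι → ι)
      (s : ι → ℝ) (i₀ : ι) (T Θ : ℝ)
      (u : ℝ → EuclideanSpace ℝ (Fin 3) → EuclideanSpace ℝ (Fin 3))
      (U : ℝ → ℝ → EuclideanSpace ℝ (Fin 3) → EuclideanSpace ℝ (Fin 3)),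
      SkewD Ω e σ s ∧ 0 < T ∧ T < Θ ∧ SolD Ω ν e σ s T u ∧ SmD T u ∧ u 0 = e i₀ ∧
      (∀ t ∈ Ico 0 T, ipr (u t) (u t) + 2 * ν * (∫ τ in (0 : ℝ)..t, gg (gr (u τ))) =
        ipr (u 0) (u 0)) ∧
      (∀ (T' : ℝ) (v : ℝ → EuclideanSpace ℝ (Fin 3) → EuclideanSpace ℝ (Fin 3)), 0 < T' →
        SolD Ω ν e σ s T' v → v 0 = e i₀ → T' ≤ T ∧ ∀ t ∈ Ico 0 T', v t = u t) ∧
      (∀ M : ℝ, ∃ t ∈ Ico 0 T, ∃ x, M < ‖u t x‖) ∧
      (∀ (T' : ℝ) (v : ℝ → EuclideanSpace ℝ (Fin 3) → EuclideanSpace ℝ (Fin 3))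
        (G : ℝ → EuclideanSpace ℝ (Fin 3) → Fin 3 → EuclideanSpace ℝ (Fin 3)), 0 < T' →
        LH Ω ν e σ s T' v G → v 0 =ᵐ[volume] u 0 →
        (∀ t ∈ Icc 0 T', t ≤ T → v t =ᵐ[volume] u t) ∧ (T ≤ T' → ¬ ∃ g, DtBdd Ω T' v g)) ∧
      ∀ δ ∈ Icc (0 : ℝ) (7 / 10), (∀ t ≤ T, U δ t = u t) ∧
        LH Ω ν e σ s Θ (U δ) (fun t => gr (U δ t)) ∧ SolA Ω ν e σ s T Θ (U δ) ∧
        (∀ t ∈ Ioc T Θ, ipr (U δ t) (U δ t) +
          2 * ν * (∫ τ in (0 : ℝ)..t, gg (gr (U δ τ))) = (1 - δ) * ipr (u 0) (u 0)) ∧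
        ∀ ε > (0 : ℝ), ∃ M, ∀ t ∈ Icc 0 Θ, t ≠ T → ∀ x,
          ‖U δ t x‖ ≤ M * |t - T| ^ (-(3 / 5 + ε)) := by
  obtain ⟨ι, e, σ, s, i₀, T, Θ, u, U, h1, h2, h3, h4, h5, h6, h7, h8, h9, h9', hbl, h11, h12⟩ :=
    hF ν Ω (1 / 4) hν hΩ hb hne (by norm_num)
  refine ⟨ι, e, σ, s, i₀, T, Θ, u, U, skewD_iff.2 h1, h2, h3, solD_iff.2 h5, ⟨h6, h7⟩, h4, h8,
    ?_, hbl, ?_, fun δ hδ => ?_⟩
  · intro T' v hT' hv hv0
    have hv' := solD_iff.1 hv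
    have heq : ∀ t ∈ Ico 0 (min T' T), v t = u t :=
      hU Ω ν _ e σ s (min T' T) v u hΩ hb hν h1 (hv'.mono (min_le_left _ _))
        (h5.mono (min_le_right _ _)) (by rw [hv0, h4])
    have hle : T' ≤ T := by
      by_contra hcon
      rw [not_le] at hcon
      rw [min_eq_right hcon.le] at heq
      obtain ⟨M, hM⟩ := hv'.bdd T hcon
      obtain ⟨t, ht, x, hx⟩ := hbl |M|
      rw [← heq t ht] at hx
      by_cases hxΩ : x ∈ Ω
      · have := (hM t ⟨ht.1, ht.2.le⟩ x hxΩ).1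
        have h2 := le_abs_self M
        linarith
      · rw [hv'.zero t ⟨ht.1, ht.2.trans hcon⟩ x hxΩ, norm_zero] at hx
        have := abs_nonneg M
        linarith
    refine ⟨hle, fun t ht => heq t ⟨ht.1, ?_⟩⟩
    rw [min_eq_left hle]
    exact ht.2
  · intro T' v G hT' hv hv0
    have hv' := lh_iff.1 hv
    have hun : ∀ t ∈ Icc 0 T', t ≤ T → v t =ᵐ[volume] u t := by
      intro t ht htT
      rcases le_or_gt T' T with hc | hc
      · exact h11 T' v G hT' hc hv' hv0 t ht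
      · have hsub : Icc (0 : ℝ) T ⊆ Icc 0 T' := Icc_subset_Icc le_rfl hc.le
        have hsub' : Ioo (0 : ℝ) T ⊆ Ioo 0 T' := Ioo_subset_Ioo le_rfl hc.le
        have hm : EJ.LH Ω ν e σ s T v G := ⟨fun t ht => hv'.inH t (hsub ht),
          fun w hw => (hv'.cont w hw).mono hsub,
          ae_restrict_of_ae_restrict_of_subset hsub' hv'.grad, hv'.diss.mono_set hsub',
          fun i => (hv'.int i).mono_set hsub', fun i t ht => hv'.eqn i t (hsub ht),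
          fun t ht => hv'.energy t (hsub ht)⟩
        exact h11 T v G h2 le_rfl hm hv0 t ⟨ht.1, htT⟩
    refine ⟨hun, ?_⟩
    rintro hTT ⟨g, hg⟩
    have hip : ∀ t ∈ Icc 0 T', t ≤ T → ipr (v t) (v t) = ipr (u t) (u t) := by
      intro t ht htT
      have e1 : ipr (v t) (v t) = ipr (u t) (v t) :=
        Pool.Agent.Y284.EJ.ipr_congr_left (hun t ht htT)
      have e2 : ipr (u t) (v t) = ipr (v t) (u t) := Pool.Agent.Y500.SK.ipr_comm _ _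
      have e3 : ipr (v t) (u t) = ipr (u t) (u t) :=
        Pool.Agent.Y284.EJ.ipr_congr_left (hun t ht htT)
      rw [e1, e2, e3]
    have hI : ∀ t ∈ Ico 0 T, t ∈ Icc 0 T' := fun t ht => ⟨ht.1, ht.2.le.trans hTT⟩
    refine no_reg (E := ipr (u 0) (u 0)) h2 hTT hv.inH hg (fun t ht => ?_) (fun t ht => ?_) ?_
    · rw [hip t (hI t ht) ht.2.le]
      have e4 := h8 t ht
      have e5 : 0 ≤ ∫ τ in (0 : ℝ)..t, EJ.gg (EJ.gr (u τ)) :=
        intervalIntegral.integral_nonneg ht.1 fun r _ => by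
          rw [EJ.gg_gr]; exact SK.dirf_nonneg _
      have e6 : 0 ≤ 2 * ν * ∫ τ in (0 : ℝ)..t, EJ.gg (EJ.gr (u τ)) := by positivity
      have e7 : SK.ipr (u t) (u t) ≤ SK.ipr (u 0) (u 0) := by linarith
      exact e7
    · rw [hip t (hI t ht) ht.2.le]
      have e4 : 1 - 1 / 4 ≤ ipr (u t) (u t) := h9 t ht
      linarith
    · rw [hip T ⟨h2.le, hTT⟩ le_rfl]
      exact h9'
  · obtain ⟨a1, a2, a3, a4, a5, a6, a7, a8, a9, a10⟩ := h12 δ hδ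
    exact ⟨a1, lh_iff.2 a2, ⟨a3, a6, a4, a5, a7⟩, a8, a10⟩

end Pool.Agent.Y7.LNR
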