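import Pool.Agent.Y303.EJ.Stm

/-!
Project LN: return of the energy from infinity (non-uniqueness of Leray-Hopf solutions of the
Navier-Stokes equations with an additional skew-adjoint linear term).
Definitions and exact statements of the steps.
-/

open Set Filter Topology MeasureTheory Metric

set_option autoImplicit false

namespace Pool.Agent.Y7.LN

open Pool.Agent.Y5 (E3 Y Pr)
open Pool.Agent.Y5.D (Ix qd vf3 Init)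
open Pool.Agent.Y6.N (Rot lin src ph XSol TSol)
open Pool.Agent.Y6.K (Kz lv)
open Pool.Agent.Y303.SK
open Pool.Agent.Y303.EJ (SeqE Num dl e0 Sg WeakD)

/-! ### The backward chain of the main modes -/

/-- duration of the transfer of the energy from the mode `n + 1` to the mode `n` -/
noncomputable def wd (lm L : ℕ → ℝ) (n : ℕ) : ℝ := √(lm n) / L n

/-- the time at which the energy arrives in the mode `n`, if it starts in the mode `N` -/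
noncomputable def sN (lm L : ℕ → ℝ) (N n : ℕ) : ℝ := ∑ m ∈ Finset.Ico n N, wd lm L m

/-- Numerical facts on the durations. -/
structure Wn (η : ℝ) (lm L : ℕ → ℝ) : Prop where
  w0 : ∀ n, 0 < wd lm L n
  wL : ∀ i n, i ≤ n → L i * wd lm L (n + 1) ≤ 1 / √(lm (n + 1))
  ws : ∀ N n, sN lm L N n ≤ 2 * wd lm L n
  wlim : Tendsto (wd lm L) atTop (𝓝 0)
  wbrk : ∀ n, 1 / (20 * L n) ≤ wd lm L n
  sq4 : ∀ n, 1 / √(lm n) ≤ dl η n ^ 2 / 10 ^ 15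

/-- The chain: `x n` are the modes (zero for `n > N`), `R n` is the square root of the energy of
the modes `≥ n`. -/
structure Cb (η : ℝ) (lm L C ℓ : ℕ → ℝ) (B : ℕ → ℕ → ℝ) (N : ℕ) (T : ℝ) (x R : ℕ → ℝ → ℝ) :
    Prop where
  sq : SeqE η lm L C ℓ B
  nm : Num η lm L C ℓ
  wn : Wn η lm L
  hT : 0 < T
  hT1 : L 0 * T ≤ lm 0
  cx : ∀ n, ContinuousOn (x n) (Ico 0 T)
  cR : ∀ n, ContinuousOn (R n) (Ico 0 T)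
  R0 : ∀ n, ∀ t ∈ Ico 0 T, 0 ≤ R n t
  R1 : ∀ t ∈ Ico 0 T, R 0 t ≤ 1
  Rsq : ∀ n, ∀ t ∈ Ico 0 T, R n t ^ 2 = x n t ^ 2 + R (n + 1) t ^ 2
  zero : ∀ n, N < n → ∀ t ∈ Ico 0 T, x n t = 0 ∧ R n t = 0
  dR : ∀ n, ∀ t ∈ Ioo 0 T, ∃ D, HasDerivAt (fun s => R n s ^ 2) D t ∧
    |D - 2 * (Sg L x n t * R n t ^ 2 + src L C x n t * x n t
      - ∑ i ∈ Finset.Ico n (N + 1), ℓ i * x i t ^ 2)| ≤
      2 * e0 lm * R n t ^ 2 + 4 * ph lm n * R n t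
  dx : ∀ n, n ≤ N → ∀ t ∈ Ioo 0 T, ∃ v, HasDerivAt (x n) v t ∧
    |v - (Sg L x n t * x n t + src L C x n t - ℓ n * x n t - L n * R (n + 1) t ^ 2)| ≤
      e0 lm * |x n t| + C n * L n * |x n t| * R (n + 1) t
        + Real.exp (-(lm (n + 1) / 2)) * R (n + 1) t ^ 2 + ph lm n

/-- numerical facts -/
def S_WN : Prop := ∀ (η : ℝ) (lm L C ℓ : ℕ → ℝ) (B : ℕ → ℕ → ℝ), SeqE η lm L C ℓ B →
  Num η lm L C ℓ → Wn η lm L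

/-- A solution of the truncated perturbed system of the main modes is a chain. -/
def S_CHB : Prop := ∀ (η : ℝ) (lm L C ℓ : ℕ → ℝ) (B : ℕ → ℕ → ℝ) (N : ℕ) (T : ℝ)
  (x f : ℕ → ℝ → ℝ), SeqE η lm L C ℓ B → Num η lm L C ℓ → Wn η lm L → 0 < T → L 0 * T ≤ lm 0 →
  (∀ n, n ≤ N → ∀ t ∈ Ico 0 T, HasDerivWithinAt (x n)
      (vf3 L C ℓ B (fun m => x m t) n + f n t) (Ico 0 T) t) →
  (∀ n, N < n → ∀ t ∈ Ico 0 T, x n t = 0) →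
  (∀ t ∈ Ico 0 T, ∑' n, x n t ^ 2 ≤ 1) →
  (∀ n, n ≤ N → ∀ t ∈ Ico 0 T, |f n t| ≤ ph lm 0 * |x n t| + ph lm n) →
  Cb η lm L C ℓ B N T x (fun n t => √(Y x n t))

/-- speeds -/
def S_LIPB : Prop := ∀ (η : ℝ) (lm L C ℓ : ℕ → ℝ) (B : ℕ → ℕ → ℝ) (N : ℕ) (T : ℝ)
  (x R : ℕ → ℝ → ℝ), Cb η lm L C ℓ B N T x R → ∀ a b : ℝ, 0 ≤ a → a ≤ b → b < T →
  (∀ n, x (n + 1) b - x (n + 1) a ≤ 2 * L n * (b - a)) ∧ x 0 b - x 0 a ≤ 1 / 1000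

/-- After its time a mode is not positive (up to a tiny number). -/
def S_POSB : Prop := ∀ (η : ℝ) (lm L C ℓ : ℕ → ℝ) (B : ℕ → ℕ → ℝ) (N : ℕ) (T : ℝ)
  (x R : ℕ → ℝ → ℝ), Cb η lm L C ℓ B N T x R → ∀ (j : ℕ) (t : ℝ), j + 1 ≤ N → t ∈ Ico 0 T →
  (∀ i, i ≤ j + 1 → sN lm L N i ≤ t → x i (sN lm L N i) ≤ 0) →
  ∀ u ∈ Icc (sN lm L N (j + 1)) t, x (j + 1) u ≤ Real.exp (-(lm j))

/-- Decay of the energy above the carrier. -/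
def S_DECB : Prop := ∀ (η : ℝ) (lm L C ℓ : ℕ → ℝ) (B : ℕ → ℕ → ℝ) (N : ℕ) (T : ℝ)
  (x R : ℕ → ℝ → ℝ), Cb η lm L C ℓ B N T x R → ∀ (i : ℕ) (t : ℝ), i + 1 ≤ N → t ∈ Ico 0 T →
  (∀ j, j ≤ i → sN lm L N j ≤ t → x j (sN lm L N j) ≤ -(1 / 4)) →
  (∀ k, i = k + 1 → ∀ u ∈ Icc (sN lm L N k) t, R (i + 1) u ≤ Real.exp (-(lm i / 300))) ∧
  ∀ u ∈ Icc 0 t, Pr (fun s => L i * R (i + 1) s ^ 2) u ≤ 100

/-- The energy of the modes `≥ n` during the transfer from `n + 1` to `n`. -/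
def S_ENB : Prop := ∀ (η : ℝ) (lm L C ℓ : ℕ → ℝ) (B : ℕ → ℕ → ℝ) (N : ℕ) (T : ℝ)
  (x R : ℕ → ℝ → ℝ), Cb η lm L C ℓ B N T x R → ∀ (n : ℕ) (t : ℝ), n + 1 ≤ N → t ∈ Ico 0 T →
  sN lm L N (n + 1) ≤ t → t ≤ sN lm L N n →
  (∀ i, n ≤ i → i + 1 ≤ N → Pr (fun s => L i * R (i + 1) s ^ 2) t ≤ 100) →
  R n (sN lm L N (n + 1)) ^ 2 - dl η (n + 1) ^ 2 / 100 ≤ R n t ^ 2

/-- The transfer from `n + 1` to `n`. -/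
def S_BARB : Prop := ∀ (η : ℝ) (lm L C ℓ : ℕ → ℝ) (B : ℕ → ℕ → ℝ) (N : ℕ) (T : ℝ)
  (x R : ℕ → ℝ → ℝ), Cb η lm L C ℓ B N T x R → ∀ (n : ℕ) (ρ : ℝ), n + 1 ≤ N →
  sN lm L N n < T → 1 / 3 ≤ ρ → x n (sN lm L N (n + 1)) ≤ 1 / 50 →
  (∀ t ∈ Ico (sN lm L N (n + 1)) (sN lm L N n), ρ ^ 2 ≤ R n t ^ 2) →
  x n (sN lm L N n) ≤ -(ρ - dl η n / 1000)

/-- The backward chain. -/
def S_INDB : Prop := ∀ (η : ℝ) (lm L C ℓ : ℕ → ℝ) (B : ℕ → ℕ → ℝ) (N : ℕ) (T : ℝ)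
  (x R : ℕ → ℝ → ℝ), Cb η lm L C ℓ B N T x R → ∀ c : ℝ, 1 / 2 ≤ c → x N 0 ≤ -c →
  (∀ m, m < N → x m 0 ≤ 1 / 100) → sN lm L N 0 < T →
  (∀ n, n ≤ N → x n (sN lm L N n) ≤ -(c - dl η n / 100)) ∧
  ∀ k, k + 2 ≤ N → ∀ u ∈ Ico (sN lm L N k) T, R (k + 2) u ≤ Real.exp (-(lm (k + 1) / 300))

/-! ### Truncated systems with general initial data -/

/-- Solutions of the truncated system (modes of the levels `≤ N`) on `[0, Θ]`. -/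
structure TSG {J : Type} (Θ : ℝ) (S : ℕ → ℝ) (o : J → ℕ) (σ : J → J) (τ : J → ℝ)
    (D : Ix J → Ix J → ℝ) (c : Ix J → Ix J → Ix J → ℝ) (N : ℕ) (z : Ix J → ℝ → ℝ) : Prop where
  zero : ∀ i, N < lv o i → ∀ t, z i t = 0
  deriv : ∀ i, lv o i ≤ N → ∀ t ∈ Icc (0 : ℝ) Θ, HasDerivWithinAt (z i)
    (Kz S o σ τ (fun a => z a t) i - lin D (fun a => z a t) i + qd c (fun a => z a t) i)
    (Icc 0 Θ) t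
  energy : ∀ t ∈ Icc (0 : ℝ) Θ, ∑' a, z a t ^ 2 ≤ ∑' a, z a 0 ^ 2
  one : ∑' a, z a 0 ^ 2 ≤ 1

/-- Existence for the truncated systems. -/
def S_GALG : Prop := ∀ (J : Type) (o : J → ℕ) (σ : J → J) (τ : J → ℝ)
  (D : Ix J → Ix J → ℝ) (c : Ix J → Ix J → Ix J → ℝ) (Θ : ℝ) (S : ℕ → ℝ), Rot o σ τ →
  (∀ (s : Finset (Ix J)) (z : Ix J → ℝ), 0 ≤ ∑ a ∈ s, ∑ b ∈ s, D a b * z a * z b) →
  (∀ j a b, c j a b = -c b a j) → 0 < Θ → ∀ (N : ℕ) (y : Ix J → ℝ),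
  (∀ i, N < lv o i → y i = 0) → ∑' i, y i ^ 2 ≤ 1 →
  ∃ z, TSG Θ S o σ τ D c N z ∧ ∀ i, z i 0 = y i

/-- The other modes are as small as we like if the speeds are chosen recursively and the initial
values are small. -/
def S_BOOTG : Prop := ∀ (J : Type) (g o : J → ℕ) (σ : J → J) (τ : J → ℝ)
  (L C ℓ ρ : ℕ → ℝ) (B : ℕ → ℕ → ℝ) (R E : Ix J → ℝ) (D : Ix J → Ix J → ℝ)
  (c : Ix J → Ix J → Ix J → ℝ) (Θ : ℝ) (β : J → ℝ), KD g L C ℓ ρ B R E D c → Rot o σ τ →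
  0 < Θ → (∀ j, 0 < β j) → ∃ (ε : J → ℝ) (H : ℕ → (ℕ → ℝ) → ℝ), (∀ j, 0 < ε j) ∧
    (∀ m s s', (∀ i, i < m → s i = s' i) → H m s = H m s') ∧
    ∀ S : ℕ → ℝ, (∀ m, 1 ≤ S m) → (∀ m, H m S ≤ S m) → ∀ N z, TSG Θ S o σ τ D c N z →
      (∀ j, |z (Sum.inr j) 0| ≤ ε j) → ∀ j, ∀ t ∈ Icc (0 : ℝ) Θ, |z (Sum.inr j) t| ≤ β j

/-- Limits of the solutions of the truncated systems. -/
def S_LIMG : Prop := ∀ (J : Type) (g o : J → ℕ) (σ : J → J) (τ : J → ℝ)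
  (η : ℝ) (lm L C ℓ ρ : ℕ → ℝ) (B : ℕ → ℕ → ℝ) (R E : Ix J → ℝ) (D : Ix J → Ix J → ℝ)
  (c : Ix J → Ix J → Ix J → ℝ) (Θ : ℝ) (S : ℕ → ℝ) (b : J → ℝ), KD g L C ℓ ρ B R E D c →
  SeqE η lm L C ℓ B → Rot o σ τ → 0 < Θ → (∀ j, 0 ≤ b j) → Summable b →
  ∀ Z : ℕ → Ix J → ℝ → ℝ, (∀ N, TSG Θ S o σ τ D c N (Z N)) →
  (∀ N j, ∀ t ∈ Icc (0 : ℝ) Θ, |Z N (Sum.inr j) t| ≤ b j) →
  ∀ U : Ultrafilter ℕ, (U : Filter ℕ) ≤ atTop → ∃ z : Ix J → ℝ → ℝ,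
    (∀ i, ∀ t ∈ Icc (0 : ℝ) Θ, Tendsto (fun N => Z N i t) U (𝓝 (z i t))) ∧
    (∀ t ∈ Icc (0 : ℝ) Θ, Summable (fun a => z a t ^ 2) ∧ ∑' a, z a t ^ 2 ≤ 1) ∧
    (∀ j, ∀ t ∈ Icc (0 : ℝ) Θ, |z (Sum.inr j) t| ≤ b j) ∧
    (∀ i, ∃ P, 0 ≤ P ∧ ∀ s ∈ Icc (0 : ℝ) Θ, ∀ t ∈ Icc (0 : ℝ) Θ,
      |z i t - z i s| ≤ P * |t - s| ∧ ∀ N, |Z N i t - Z N i s| ≤ P * |t - s|) ∧
    ∀ θ, 0 ≤ θ → θ < Θ →
      (∃ X, ∀ᶠ N in (U : Filter ℕ), ∀ t ∈ Icc θ Θ, ∀ n, L n * |Z N (Sum.inl n) t| ≤ X) →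
      ∀ i, ∀ t ∈ Icc θ Θ, HasDerivWithinAt (z i)
        (Kz S o σ τ (fun a => z a t) i - lin D (fun a => z a t) i + qd c (fun a => z a t) i)
        (Icc θ Θ) t

/-- The modes are Lipschitz continuous up to the blow-up time. -/
def S_LIPT : Prop := ∀ (J : Type) (g o : J → ℕ) (σ : J → J) (τ : J → ℝ)
  (L C ℓ ρ : ℕ → ℝ) (B : ℕ → ℕ → ℝ) (R E : Ix J → ℝ) (D : Ix J → Ix J → ℝ)
  (c : Ix J → Ix J → Ix J → ℝ) (S : ℕ → ℝ) (T : ℝ) (z : Ix J → ℝ → ℝ),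
  KD g L C ℓ ρ B R E D c → Rot o σ τ → 0 < T →
  (∀ i, ∀ t ∈ Ico 0 T, HasDerivWithinAt (z i)
    (Kz S o σ τ (fun a => z a t) i - lin D (fun a => z a t) i + qd c (fun a => z a t) i)
    (Ico 0 T) t) →
  (∀ t ∈ Ico 0 T, Summable (fun a => z a t ^ 2) ∧ ∑' a, z a t ^ 2 ≤ 1) →
  (∀ t ∈ Ico 0 T, Summable fun a => |z a t|) →
  ∀ i, ∃ P, 0 ≤ P ∧ ∀ s ∈ Ico 0 T, ∀ t ∈ Ico 0 T, |z i t - z i s| ≤ P * |t - s|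

/-- The energy at the time `0+`. -/
def S_LIM0 : Prop := ∀ (J : Type) (η c Θ : ℝ) (w : ℕ → ℝ) (y : Ix J → ℝ) (z : Ix J → ℝ → ℝ),
  0 < Θ → 0 < η → 1 / 2 ≤ c → Tendsto w atTop (𝓝 0) → Summable (fun a => y a ^ 2) →
  (∀ i, ∃ P, ∀ t ∈ Icc (0 : ℝ) Θ, |z i t - y i| ≤ P * t) →
  (∀ t ∈ Ioc (0 : ℝ) Θ, Summable (fun a => z a t ^ 2) ∧ ∑' a, z a t ^ 2 ≤ ∑' a, y a ^ 2 + c ^ 2) →
  AntitoneOn (fun t => ∑' a, z a t ^ 2) (Ioc 0 Θ) →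
  (∀ n, ∃ t ∈ Ioc (0 : ℝ) Θ, t ≤ w n ∧ z (Sum.inl n) t ≤ -(c - dl η n / 100)) →
  Tendsto (fun t => ∑' a, z a t ^ 2) (𝓝[>] 0) (𝓝 (∑' a, y a ^ 2 + c ^ 2))

/-! ### Pieces of weak solutions -/

/-- A piece of a weak solution on `[0, T]`, smooth in `(0, T)`. -/
structure Pc {ι : Type} (Ω : Set E3) (ν : ℝ) (e : ι → E3 → E3) (σ : ι → ι) (s : ι → ℝ)
    (T : ℝ) (u : ℝ → E3 → E3) : Prop where
  hT : 0 < T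
  inH : ∀ t ∈ Icc 0 T, InH Ω (u t)
  en1 : ∀ t ∈ Icc 0 T, ipr (u t) (u t) ≤ 1
  lip : ∀ i, ∃ P, ∀ a ∈ Icc 0 T, ∀ b ∈ Icc 0 T,
    |ipr (u b) (e i) - ipr (u a) (e i)| ≤ P * |b - a|
  der : ∀ i, ∀ t ∈ Ioo 0 T, HasDerivAt (fun τ => ipr (u τ) (e i))
    (s i * ipr (u t) (e (σ i)) - ν * dirf (u t) (e i) - adv (u t) (u t) (e i)) t
  en : ∀ t ∈ Ioo 0 T, HasDerivAt (fun τ => ipr (u τ) (u τ)) (-(2 * (ν * dirf (u t) (u t)))) t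

/-- Two pieces give a weak solution, with the energy inequality from all times `a ≠ T`. -/
def S_GLUE : Prop := ∀ (Ω : Set E3) (ν : ℝ) (ι : Type) (e : ι → E3 → E3) (σ : ι → ι)
  (s : ι → ℝ) (T Θ E₁ E₂ : ℝ) (u₁ u₂ : ℝ → E3 → E3), IsOpen Ω → Bornology.IsBounded Ω → 0 < ν →
  Countable ι → SkewD Ω e σ s → Pc Ω ν e σ s T u₁ → Pc Ω ν e σ s Θ u₂ → u₂ 0 = u₁ T →
  Tendsto (fun t => ipr (u₁ t) (u₁ t)) (𝓝[>] 0) (𝓝 (ipr (u₁ 0) (u₁ 0))) →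
  Tendsto (fun t => ipr (u₁ t) (u₁ t)) (𝓝[<] T) (𝓝 E₁) →
  Tendsto (fun t => ipr (u₂ t) (u₂ t)) (𝓝[>] 0) (𝓝 E₂) →
  Tendsto (fun t => ipr (u₂ t) (u₂ t)) (𝓝[<] Θ) (𝓝 (ipr (u₂ Θ) (u₂ Θ))) →
  E₂ ≤ E₁ → ipr (u₁ T) (u₁ T) ≤ E₁ →
  WeakD Ω ν e σ s (T + Θ) (fun t => if t ≤ T then u₁ t else u₂ (t - T)) ∧
  ∀ a ∈ Icc 0 (T + Θ), a ≠ T → ∀ b ∈ Icc a (T + Θ), ∀ U : ℝ → E3 → E3,
    (∀ t, U t = if t ≤ T then u₁ t else u₂ (t - T)) →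
    ipr (U b) (U b) + 2 * ν * (∫ τ in a..b, dirf (U τ) (U τ)) ≤ ipr (U a) (U a)

end Pool.Agent.Y7.LN
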